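import Mathlib

/-!
# Absolute continuity of a function with respect to another one
-/

set_option autoImplicit false

open scoped ENNReal NNReal

namespace Pool.Agent.J4H99.PT

/-- The function `A` is absolutely continuous with respect to the nondecreasing function `V`: on
every interval `[0, T]`, for every `ε > 0` there is `δ > 0` such that the increments of `A` over
finitely many disjoint intervals have total size less than `ε` as soon as those of `V` have total
size less than `δ`. -/
def AbsCont (A V : ℝ≥0 → ℝ) : Prop :=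
  ∀ T : ℝ≥0, ∀ ε : ℝ, 0 < ε → ∃ δ : ℝ, 0 < δ ∧ ∀ J : Finset (ℝ≥0 × ℝ≥0),
    (∀ p ∈ J, p.1 ≤ p.2 ∧ p.2 ≤ T) →
    (J : Set (ℝ≥0 × ℝ≥0)).PairwiseDisjoint (fun p => Set.Ioo p.1 p.2) →
    ∑ p ∈ J, |V p.2 - V p.1| < δ → ∑ p ∈ J, |A p.2 - A p.1| < ε

end Pool.Agent.J4H99.PT
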