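import Pool.Agent.J4H99.PT.Mart
import Pool.Agent.J4H99.PT.Defs

/-!
# The running maximum is singular
-/

set_option autoImplicit false

open MeasureTheory ProbabilityTheory Filter Topology Set
open scoped ENNReal NNReal

namespace Pool.Agent.J4H99.PT

lemma dy_step (T : ℝ≥0) (n k : ℕ) : (dy T n (k + 1) : ℝ) = dy T n k + (T / 2 ^ n : ℝ≥0) := by
  rw [← NNReal.coe_add]
  congr 1
  unfold dy
  push_cast
  field_simp

lemma mx_const {w : ℝ≥0 → ℝ} (hw : Continuous w) {a b : ℝ≥0} (hab : a ≤ b)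
    (h : ∀ u, a ≤ u → u ≤ b → mx w u ≠ w u) : mx w b = mx w a := by
  obtain ⟨u, hu, hu'⟩ := mx_mem hw b
  rcases le_total u a with h1 | h1
  · exact le_antisymm (hu' ▸ le_mx hw h1) (mx_mono hw hab)
  · exact absurd (le_antisymm (hu' ▸ mx_mono hw hu) (le_mx hw le_rfl)) (h u h1 hu)

theorem nonAC {w : ℝ≥0 → ℝ} (hw : Continuous w) (h0 : w 0 = 0) {y : ℝ → ℝ≥0∞} {T : ℝ≥0}
    (hT : 0 < T) (hfin : ∫⁻ v in Ioo (0 : ℝ) T, y v < ∞)
    (hZ : volume {v : ℝ | v ∈ Ioo (0 : ℝ) T ∧ mx w v.toNNReal = w v.toNNReal} = 0)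
    (hS : 0 < mx w T) {A : ℝ≥0 → ℝ}
    (hA : ∀ t ≤ T, A t = 2 * mx w t - (∫⁻ v in Ioo (0 : ℝ) t, y v).toReal) :
    ¬ AbsCont A (fun t => (t : ℝ)) := by
  classical
  intro hAC
  obtain ⟨δ1, hδ1, hJ⟩ := hAC T (mx w T) hS
  have hε : ENNReal.ofReal (mx w T / 2) ≠ 0 := (ENNReal.ofReal_pos.2 (by linarith)).ne'
  obtain ⟨δ2, hδ2, hint⟩ := exists_pos_setLIntegral_lt_of_measure_lt
    (μ := volume.restrict (Ioo (0 : ℝ) T)) (f := y) hfin.ne hε
  have hTr : (0 : ℝ) < T := by exact_mod_cast hT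
  set K : Set ℝ := {v : ℝ | v ∈ Icc (0 : ℝ) T ∧ mx w v.toNNReal = w v.toNNReal} with hK
  have hKc : IsCompact K := by
    refine isCompact_Icc.of_isClosed_subset ?_ (fun v hv => hv.1)
    have c1 : Continuous fun v : ℝ => mx w v.toNNReal := (cont_mx hw).comp continuous_real_toNNReal
    have c2 : Continuous fun v : ℝ => w v.toNNReal := hw.comp continuous_real_toNNReal
    exact isClosed_Icc.inter (isClosed_eq c1 c2)
  have hK0 : volume K = 0 := by
    have hsub : K ⊆ {v : ℝ | v ∈ Ioo (0 : ℝ) T ∧ mx w v.toNNReal = w v.toNNReal} ∪ {0, (T : ℝ)} := by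
      rintro v ⟨⟨h1, h2⟩, h3⟩
      rcases h1.eq_or_lt with h4 | h4
      · right; left; exact h4.symm
      rcases h2.eq_or_lt with h5 | h5
      · right; right; exact h5
      · left; exact ⟨⟨h4, h5⟩, h3⟩
    refine measure_mono_null hsub (measure_union_null hZ ?_)
    exact (Set.toFinite _).measure_zero _
  have htend := tendsto_measure_cthickening_of_isCompact (μ := volume) hKc
  rw [hK0] at htend
  have hmin : 0 < min (ENNReal.ofReal δ1) δ2 := lt_min (ENNReal.ofReal_pos.2 hδ1) hδ2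
  have hev := htend.eventually (gt_mem_nhds hmin)
  have hmesh : Tendsto (fun n : ℕ => ((T / 2 ^ n : ℝ≥0) : ℝ)) atTop (𝓝 0) := by
    have := (NNReal.tendsto_coe.2 (tendsto_mesh T))
    simpa using this
  obtain ⟨n, hn⟩ := (hmesh.eventually hev).exists
  set h : ℝ≥0 := T / 2 ^ n with hh
  have hh0 : 0 < h := by positivity
  have hhr : (0 : ℝ) < h := by exact_mod_cast hh0
  set t : ℕ → ℝ≥0 := dy T n with ht
  have htm : Monotone t := dy_mono T n
  have hstep : ∀ k, (t (k + 1) : ℝ) = t k + h := dy_step T n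
  have htle : ∀ k < 2 ^ n, t (k + 1) ≤ T := fun k hk => dy_le (by omega)
  have htlt : ∀ k, t k < t (k + 1) := by
    intro k
    have : (t k : ℝ) < t (k + 1) := by rw [hstep]; linarith
    exact_mod_cast this
  have hts : StrictMono t := strictMono_nat_of_lt_succ htlt
  set J0 : Finset ℕ := (Finset.range (2 ^ n)).filter
    (fun k => ∃ u : ℝ≥0, t k ≤ u ∧ u ≤ t (k + 1) ∧ mx w u = w u) with hJ0
  set J : Finset (ℝ≥0 × ℝ≥0) := J0.image (fun k => (t k, t (k + 1))) with hJdef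
  have hinj : Set.InjOn (fun k => (t k, t (k + 1))) (J0 : Set ℕ) := by
    intro a _ b _ hab
    exact hts.injective (Prod.ext_iff.1 hab).1
  have hdisjN : ∀ a b : ℕ, a ≠ b → Disjoint (Ioo (t a) (t (a + 1))) (Ioo (t b) (t (b + 1))) := by
    have key : ∀ a b : ℕ, a < b → Disjoint (Ioo (t a) (t (a + 1))) (Ioo (t b) (t (b + 1))) := by
      intro a b hab
      rw [Set.disjoint_left]
      intro x h1 h2
      have : t (a + 1) ≤ t b := htm hab
      exact absurd (h1.2.trans_le this) (not_lt.2 h2.1.le)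
    intro a b hab
    rcases lt_or_gt_of_ne hab with h1 | h1
    · exact key a b h1
    · exact (key b a h1).symm
  -- the union of the cells
  set U : Set ℝ := ⋃ k ∈ J0, Ioo (t k : ℝ) (t (k + 1)) with hU
  have hdisjR : (J0 : Set ℕ).PairwiseDisjoint (fun k => Ioo (t k : ℝ) (t (k + 1))) := by
    have key : ∀ a b : ℕ, a < b → Disjoint (Ioo (t a : ℝ) (t (a + 1))) (Ioo (t b : ℝ) (t (b + 1))) := by
      intro a b hab
      rw [Set.disjoint_left]
      intro x h1 h2
      have : (t (a + 1) : ℝ) ≤ t b := by exact_mod_cast htm hab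
      exact absurd (h1.2.trans_le this) (not_lt.2 h2.1.le)
    intro a _ b _ hab
    rcases lt_or_gt_of_ne hab with h1 | h1
    · exact key a b h1
    · exact (key b a h1).symm
  have hUsub : U ⊆ Metric.cthickening (h : ℝ) K := by
    intro x hx
    simp only [hU, mem_iUnion, exists_prop] at hx
    obtain ⟨k, hk, hx⟩ := hx
    have hk' := Finset.mem_filter.1 hk
    obtain ⟨u, h1, h2, h3⟩ := hk'.2
    have hk2 : k < 2 ^ n := Finset.mem_range.1 hk'.1
    have huK : (u : ℝ) ∈ K := by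
      refine ⟨⟨u.2, ?_⟩, ?_⟩
      · exact_mod_cast h2.trans (htle k hk2)
      · rw [Real.toNNReal_coe]; exact h3
    refine Metric.mem_cthickening_of_dist_le x u _ K huK ?_
    rw [Real.dist_eq, abs_le]
    have e1 : (t k : ℝ) ≤ u := by exact_mod_cast h1
    have e2 : (u : ℝ) ≤ t (k + 1) := by exact_mod_cast h2
    have e3 := hstep k
    constructor <;> linarith [hx.1, hx.2]
  have hUlt : volume U < min (ENNReal.ofReal δ1) δ2 := lt_of_le_of_lt (measure_mono hUsub) hn
  have hUvol : volume U = ENNReal.ofReal (∑ k ∈ J0, |(t (k + 1) : ℝ) - t k|) := by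
    rw [hU, measure_biUnion_finset hdisjR (fun k _ => measurableSet_Ioo),
      ENNReal.ofReal_sum_of_nonneg (fun k _ => abs_nonneg _)]
    refine Finset.sum_congr rfl fun k _ => ?_
    rw [Real.volume_Ioo, abs_of_pos (by rw [hstep]; linarith)]
  have hV : ∑ k ∈ J0, |(t (k + 1) : ℝ) - t k| < δ1 := by
    have := hUlt.trans_le (min_le_left _ _)
    rw [hUvol] at this
    exact (ENNReal.ofReal_lt_ofReal_iff hδ1).1 this
  have hAsum := hJ J (by
    intro p hp
    obtain ⟨k, hk, rfl⟩ := Finset.mem_image.1 hp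
    have hk2 : k < 2 ^ n := Finset.mem_range.1 (Finset.mem_filter.1 hk).1
    exact ⟨(htlt k).le, htle k hk2⟩) (by
    intro p hp q hq hpq
    obtain ⟨a, ha, rfl⟩ := Finset.mem_image.1 (Finset.mem_coe.1 hp)
    obtain ⟨b, hb, rfl⟩ := Finset.mem_image.1 (Finset.mem_coe.1 hq)
    refine hdisjN a b ?_
    rintro rfl
    exact hpq rfl) (by
    rw [hJdef, Finset.sum_image hinj]
    exact hV)
  rw [hJdef, Finset.sum_image hinj] at hAsum
  simp only at hAsum
  -- the integrals over the cells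
  have hcell : ∀ k < 2 ^ n, ∫⁻ v in Ioo (t k : ℝ) (t (k + 1)), y v ≤
      ∫⁻ v in Ioo (0 : ℝ) T, y v := by
    intro k hk
    refine lintegral_mono_set (Ioo_subset_Ioo (t k).2 ?_)
    exact_mod_cast htle k hk
  have hYfin : ∀ s ≤ T, ∫⁻ v in Ioo (0 : ℝ) s, y v < ∞ := by
    intro s hs
    refine lt_of_le_of_lt (lintegral_mono_set (Ioo_subset_Ioo le_rfl ?_)) hfin
    exact_mod_cast hs
  have hYstep : ∀ k < 2 ^ n, (∫⁻ v in Ioo (0 : ℝ) (t (k + 1)), y v).toReal -
      (∫⁻ v in Ioo (0 : ℝ) (t k), y v).toReal ≤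
      (∫⁻ v in Ioo (t k : ℝ) (t (k + 1)), y v).toReal := by
    intro k hk
    have h1 : ∫⁻ v in Ioo (0 : ℝ) (t (k + 1)), y v ≤
        (∫⁻ v in Ioo (0 : ℝ) (t k), y v) + ∫⁻ v in Ioo (t k : ℝ) (t (k + 1)), y v := by
      have hs : Ioo (0 : ℝ) (t (k + 1)) ⊆
          (Ioo (0 : ℝ) (t k) ∪ {(t k : ℝ)}) ∪ Ioo (t k : ℝ) (t (k + 1)) := by
        intro x hx
        rcases lt_trichotomy x (t k) with h1 | h1 | h1
        · exact Or.inl (Or.inl ⟨hx.1, h1⟩)
        · exact Or.inl (Or.inr h1)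
        · exact Or.inr ⟨h1, hx.2⟩
      refine (lintegral_mono_set hs).trans ((lintegral_union_le _ _ _).trans ?_)
      refine add_le_add ((lintegral_union_le _ _ _).trans ?_) le_rfl
      simp
    have h2 : ∫⁻ v in Ioo (t k : ℝ) (t (k + 1)), y v < ∞ := lt_of_le_of_lt (hcell k hk) hfin
    have h3 : ∫⁻ v in Ioo (0 : ℝ) (t k), y v < ∞ :=
      hYfin _ (dy_le (by omega))
    have h4 := ENNReal.toReal_mono (ENNReal.add_lt_top.2 ⟨h3, h2⟩).ne h1
    rw [ENNReal.toReal_add h3.ne h2.ne] at h4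
    linarith
  have hUint : ∑ k ∈ J0, (∫⁻ v in Ioo (t k : ℝ) (t (k + 1)), y v).toReal < mx w T / 2 := by
    have hlt : ∀ k ∈ J0, k < 2 ^ n := fun k hk => Finset.mem_range.1 (Finset.mem_filter.1 hk).1
    rw [← ENNReal.toReal_sum (fun k hk => (lt_of_le_of_lt (hcell k (hlt k hk)) hfin).ne)]
    have hUT : U ⊆ Ioo (0 : ℝ) T := by
      intro x hx
      simp only [hU, mem_iUnion, exists_prop] at hx
      obtain ⟨k, hk, hx⟩ := hx
      have h1 : (t (k + 1) : ℝ) ≤ T := by exact_mod_cast htle k (hlt k hk)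
      exact ⟨lt_of_le_of_lt (t k).2 hx.1, lt_of_lt_of_le hx.2 h1⟩
    have hUm : MeasurableSet U := Finset.measurableSet_biUnion _ fun k _ => measurableSet_Ioo
    have e1 : ∑ k ∈ J0, ∫⁻ v in Ioo (t k : ℝ) (t (k + 1)), y v = ∫⁻ v in U, y v := by
      rw [hU, lintegral_biUnion_finset hdisjR (fun k _ => measurableSet_Ioo)]
    have hlt2 := hint U (by
      rw [Measure.restrict_apply hUm, inter_eq_left.2 hUT]
      exact hUlt.trans_le (min_le_right _ _))
    rw [Measure.restrict_restrict hUm, inter_eq_left.2 hUT] at hlt2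
    rw [e1]
    have := (ENNReal.toReal_lt_toReal (hlt2.trans ENNReal.ofReal_lt_top).ne
      ENNReal.ofReal_ne_top).2 hlt2
    rwa [ENNReal.toReal_ofReal (by linarith)] at this
  -- the increments of the maximum
  have hSsum : ∑ k ∈ J0, (mx w (t (k + 1)) - mx w (t k)) = mx w T := by
    have e1 : ∑ k ∈ Finset.range (2 ^ n), (mx w (t (k + 1)) - mx w (t k)) = mx w T := by
      rw [Finset.sum_range_sub (fun k => mx w (t k))]
      have e2 : t (2 ^ n) = T := dy_last T n
      have e3 : t 0 = 0 := by simp [ht, dy]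
      rw [e2, e3, mx_zero, h0, sub_zero]
    rw [← e1, hJ0, Finset.sum_filter_of_ne]
    intro k hk hne
    by_contra hcon
    apply hne
    rw [mx_const hw (htlt k).le, sub_self]
    intro u h1 h2 h3
    exact hcon ⟨u, h1, h2, h3⟩
  have hfinal : ∑ k ∈ J0, |A (t (k + 1)) - A (t k)| ≥ 2 * mx w T - mx w T / 2 := by
    calc ∑ k ∈ J0, |A (t (k + 1)) - A (t k)| ≥ ∑ k ∈ J0,
          (2 * (mx w (t (k + 1)) - mx w (t k)) -
            (∫⁻ v in Ioo (t k : ℝ) (t (k + 1)), y v).toReal) := by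
          refine Finset.sum_le_sum fun k hk => ?_
          have hk2 : k < 2 ^ n := Finset.mem_range.1 (Finset.mem_filter.1 hk).1
          refine le_trans ?_ (le_abs_self _)
          rw [hA _ (htle k hk2), hA _ (dy_le (by omega))]
          linarith [hYstep k hk2]
      _ = 2 * (∑ k ∈ J0, (mx w (t (k + 1)) - mx w (t k))) -
            ∑ k ∈ J0, (∫⁻ v in Ioo (t k : ℝ) (t (k + 1)), y v).toReal := by
          rw [Finset.sum_sub_distrib, Finset.mul_sum]
      _ ≥ 2 * mx w T - mx w T / 2 := by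
          rw [hSsum]
          linarith
  linarith

end Pool.Agent.J4H99.PT
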