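import Mathlib

/-!
# Running maximum of a continuous path, Brownian motion: basics (MP_e3daee_pr)
-/

set_option autoImplicit false

open MeasureTheory ProbabilityTheory Filter Topology Set
open scoped ENNReal NNReal

namespace Pool.Agent.J4H99.PT

/-- the maximum of the path `w` over `[0, t]` -/
noncomputable def mx (w : ℝ≥0 → ℝ) (t : ℝ≥0) : ℝ := sSup (w '' Icc 0 t)

section det

variable {w : ℝ≥0 → ℝ} {s t a : ℝ≥0}

lemma bdd (hw : Continuous w) (t : ℝ≥0) : BddAbove (w '' Icc 0 t) :=
  (isCompact_Icc.image hw).bddAbove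

lemma le_mx (hw : Continuous w) (h : s ≤ t) : w s ≤ mx w t :=
  le_csSup (bdd hw t) ⟨s, ⟨zero_le, h⟩, rfl⟩

lemma mx_mem (hw : Continuous w) (t : ℝ≥0) : ∃ s ≤ t, mx w t = w s := by
  have h := (isCompact_Icc (a := (0 : ℝ≥0)) (b := t)).image hw
  have hne : (w '' Icc 0 t).Nonempty := ⟨w 0, 0, ⟨le_rfl, zero_le⟩, rfl⟩
  obtain ⟨s, hs, hs'⟩ := h.sSup_mem hne
  exact ⟨s, hs.2, hs'.symm⟩

lemma mx_le {c : ℝ} (h : ∀ s ≤ t, w s ≤ c) : mx w t ≤ c := by
  refine csSup_le ⟨w 0, 0, ⟨le_rfl, zero_le⟩, rfl⟩ ?_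
  rintro _ ⟨s, hs, rfl⟩
  exact h s hs.2

lemma mx_le_iff (hw : Continuous w) {c : ℝ} : mx w t ≤ c ↔ ∀ s ≤ t, w s ≤ c :=
  ⟨fun h _ hs => (le_mx hw hs).trans h, mx_le⟩

lemma mx_mono (hw : Continuous w) (h : s ≤ t) : mx w s ≤ mx w t :=
  mx_le fun _ hu => le_mx hw (hu.trans h)

lemma mx_zero (w : ℝ≥0 → ℝ) : mx w 0 = w 0 := by
  unfold mx
  have : Icc (0 : ℝ≥0) 0 = {0} := by simp
  rw [this, image_singleton, csSup_singleton]

/-- the path after time `s`, started at zero -/
def sh (w : ℝ≥0 → ℝ) (s : ℝ≥0) (u : ℝ≥0) : ℝ := w (s + u) - w s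

lemma cont_sh (hw : Continuous w) (s : ℝ≥0) : Continuous (sh w s) := by
  unfold sh
  fun_prop

lemma mx_add (hw : Continuous w) (s t : ℝ≥0) :
    mx w (s + t) = max (mx w s) (w s + mx (sh w s) t) := by
  apply le_antisymm
  · refine mx_le fun u hu => ?_
    rcases le_total u s with h | h
    · exact (le_mx hw h).trans (le_max_left _ _)
    · refine le_trans ?_ (le_max_right _ _)
      have h1 : u - s ≤ t := by
        rw [tsub_le_iff_left]; exact hu
      have h2 := le_mx (cont_sh hw s) h1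
      unfold sh at h2
      rw [add_tsub_cancel_of_le h] at h2
      linarith!
  · refine max_le (mx_mono hw le_self_add) ?_
    obtain ⟨u, hu, hu'⟩ := mx_mem (cont_sh hw s) t
    rw [hu']
    unfold sh
    have := le_mx hw (add_le_add_right hu s)
    linarith

lemma cont_mx (hw : Continuous w) : Continuous (mx w) := by
  have h1 : mx w = fun t => sSup ((fun u => w (t * u)) '' Icc 0 1) := by
    funext t
    unfold mx
    congr 1
    ext v
    constructor
    · rintro ⟨s, hs, rfl⟩
      rcases eq_or_ne t 0 with ht | ht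
      · refine ⟨0, ⟨le_rfl, zero_le⟩, ?_⟩
        have : s = 0 := by
          rw [ht] at hs
          exact le_antisymm hs.2 hs.1
        simp [this]
      · refine ⟨s / t, ⟨zero_le, ?_⟩, ?_⟩
        · rw [div_le_one₀ (pos_of_ne_zero ht)]
          exact hs.2
        · simp only
          rw [mul_div_cancel₀ _ ht]
    · rintro ⟨u, hu, rfl⟩
      exact ⟨t * u, ⟨zero_le, mul_le_of_le_one_right zero_le hu.2⟩, rfl⟩
  rw [h1]
  exact isCompact_Icc.continuous_sSup (by fun_prop)

end det

section meas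

variable {Ω : Type*} {m : MeasurableSpace Ω} {X : ℝ≥0 → Ω → ℝ}

/-- The running maximum of a continuous process is measurable. -/
lemma meas_mx (t : ℝ≥0) (hX : ∀ u ≤ t, Measurable (X u)) (hc : ∀ ω, Continuous fun u => X u ω) :
    Measurable fun ω => mx (fun u => X u ω) t := by
  refine measurable_of_Iic fun c => ?_
  have h1 : (fun ω => mx (fun u => X u ω) t) ⁻¹' Iic c =
      ⋂ n : ℕ, {ω | X (min (TopologicalSpace.denseSeq ℝ≥0 n) t) ω ≤ c} := by
    ext ω
    simp only [mem_preimage, mem_Iic, mem_iInter, mem_ofPred_eq]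
    rw [mx_le_iff (hc ω)]
    constructor
    · intro h n
      exact h _ (min_le_right _ _)
    · intro h s hs
      have h3 : IsClosed {z : ℝ≥0 | X (min z t) ω ≤ c} := by
        have : Continuous fun z => X (min z t) ω := by
          have := hc ω
          fun_prop
        exact isClosed_le this continuous_const
      have h4 : range (TopologicalSpace.denseSeq ℝ≥0) ⊆ {z : ℝ≥0 | X (min z t) ω ≤ c} := by
        rintro _ ⟨n, rfl⟩
        exact h n
      have h5 := closure_minimal h4 h3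
      rw [(TopologicalSpace.denseRange_denseSeq ℝ≥0).closure_range] at h5
      have := h5 (mem_univ s)
      simpa only [mem_ofPred_eq, min_eq_left hs] using this
  rw [h1]
  exact MeasurableSet.iInter fun n =>
    measurableSet_le (hX _ (min_le_right _ _)) measurable_const

end meas

section raw

variable {Ω : Type*}

/-- the raw filtration of a process -/
@[reducible] def raw (X : ℝ≥0 → Ω → ℝ) (t : ℝ≥0) : MeasurableSpace Ω :=
  ⨆ u : Iic t, MeasurableSpace.comap (X u) inferInstance

lemma raw_mono (X : ℝ≥0 → Ω → ℝ) : Monotone (raw X) := by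
  intro s t hst
  refine iSup_le fun u => ?_
  exact le_iSup (fun u : Iic t => MeasurableSpace.comap (X u) inferInstance)
    ⟨u, le_trans u.2 hst⟩

lemma meas_raw {X : ℝ≥0 → Ω → ℝ} {u t : ℝ≥0} (h : u ≤ t) : Measurable[raw X t] (X u) := by
  refine Measurable.of_comap_le ?_
  exact le_iSup (fun u : Iic t => MeasurableSpace.comap (X u) inferInstance) ⟨u, h⟩

lemma raw_le {X : ℝ≥0 → Ω → ℝ} {t : ℝ≥0} {m : MeasurableSpace Ω}
    (h : ∀ u ≤ t, Measurable[m] (X u)) : raw X t ≤ m :=
  iSup_le fun u => (h u u.2).comap_le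

lemma raw_eq_comap (X : ℝ≥0 → Ω → ℝ) (t : ℝ≥0) :
    raw X t = MeasurableSpace.comap (fun ω (u : Iic t) => X u ω) MeasurableSpace.pi := by
  unfold raw MeasurableSpace.pi
  rw [MeasurableSpace.comap_iSup]
  refine iSup_congr fun u => ?_
  rw [MeasurableSpace.comap_comp]
  rfl

end raw

/-- a Brownian motion with all paths continuous, started at `0`, with measurable coordinates -/
structure BM {Ω : Type*} [MeasurableSpace Ω] (B : ℝ≥0 → Ω → ℝ) (P : Measure Ω) : Prop where
  pre : IsPreBrownianReal B P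
  meas : ∀ t, Measurable (B t)
  cont : ∀ ω, Continuous (fun t => B t ω)
  zero : ∀ ω, B 0 ω = 0

section bm

variable {Ω : Type*} [MeasurableSpace Ω] {P : Measure Ω} {B : ℝ≥0 → Ω → ℝ}

lemma BM.prob (hB : BM B P) : IsProbabilityMeasure P := hB.pre.isGaussianProcess.isProbabilityMeasure

/-- the process after time `s` -/
def shB (B : ℝ≥0 → Ω → ℝ) (s : ℝ≥0) (t : ℝ≥0) (ω : Ω) : ℝ := B (s + t) ω - B s ω

lemma BM.shift (hB : BM B P) (s : ℝ≥0) : BM (shB B s) P where
  pre := hB.pre.shift s
  meas t := (hB.meas _).sub (hB.meas _)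
  cont ω := by
    have := hB.cont ω
    unfold shB
    fun_prop
  zero ω := by simp [shB]

lemma BM.law (hB : BM B P) (t : ℝ≥0) : P.map (B t) = gaussianReal 0 t := (hB.pre.hasLaw_eval t).map_eq

/-- The Markov property. -/
lemma BM.indep (hB : BM B P) (s : ℝ≥0) :
    Indep (raw B s) (⨆ t : ℝ≥0, MeasurableSpace.comap (shB B s t) inferInstance) P := by
  have h := hB.pre.indepFun_shift s
  rw [IndepFun_iff_Indep] at h
  rw [raw_eq_comap]
  refine Indep.symm ?_
  convert h using 1
  unfold MeasurableSpace.pi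
  rw [MeasurableSpace.comap_iSup]
  refine iSup_congr fun u => ?_
  rw [MeasurableSpace.comap_comp]
  rfl

end bm

end Pool.Agent.J4H99.PT
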