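import Pool.Agent.J4H99.PT.Pit

/-!
# Two kernel computations
-/

set_option autoImplicit false

open MeasureTheory ProbabilityTheory Filter Topology Set
open scoped ENNReal NNReal

namespace Pool.Agent.J4H99.PT

section gauss

/-- the Gaussian density with real variance -/
noncomputable def pr (v y : ℝ) : ℝ≥0∞ := gaussianPDF 0 v.toNNReal y

lemma pr_coe (v : ℝ≥0) (y : ℝ) : pr v y = gaussianPDF 0 v y := by
  unfold pr
  rw [Real.toNNReal_coe]

lemma meas_pr : Measurable (fun q : ℝ × ℝ => pr q.1 q.2) := by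
  unfold pr gaussianPDF gaussianPDFReal
  simp only [Real.coe_toNNReal']
  fun_prop

lemma pr_scale {v : ℝ} (hv : 0 < v) (y : ℝ) :
    pr v y = ENNReal.ofReal (√v)⁻¹ * gaussianPDF 0 1 (y / √v) := by
  unfold pr gaussianPDF gaussianPDFReal
  have hs : 0 < √v := Real.sqrt_pos.2 hv
  rw [← ENNReal.ofReal_mul (by positivity), Real.coe_toNNReal _ hv.le]
  congr 1
  have h1 : √(2 * Real.pi * v) = √(2 * Real.pi) * √v := Real.sqrt_mul (by positivity) _
  have h2 : (y / √v) ^ 2 = y ^ 2 / v := by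
    rw [div_pow, Real.sq_sqrt hv.le]
  simp only [sub_zero, NNReal.coe_one, mul_one, h1, h2]
  rw [mul_inv]
  have h3 : -y ^ 2 / (2 * v) = -(y ^ 2 / v) / 2 := by
    field_simp
  rw [h3]
  ring

lemma fv {z y τ : ℝ} (hz : 0 < z) (hy : 0 ≤ y) (hτ : 0 < τ) :
    ∫⁻ v in Ioo 0 τ, (if y < √v * z then ENNReal.ofReal (z / (2 * √v)) else 0) =
      ENNReal.ofReal (max 0 (√τ * z - y)) := by
  classical
  rcases le_or_gt (√τ * z) y with h | h
  · rw [max_eq_left (by linarith), ENNReal.ofReal_zero]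
    have : ∫⁻ v in Ioo 0 τ, (if y < √v * z then ENNReal.ofReal (z / (2 * √v)) else 0) =
        ∫⁻ _v in Ioo 0 τ, (0 : ℝ≥0∞) := by
      refine setLIntegral_congr_fun measurableSet_Ioo fun v hv => ?_
      rw [if_neg]
      have h1 : √v ≤ √τ := Real.sqrt_le_sqrt hv.2.le
      have h2 : √v * z ≤ √τ * z := mul_le_mul_of_nonneg_right h1 hz.le
      linarith
    rw [this, lintegral_zero]
  · rw [max_eq_right (by linarith)]
    set v0 : ℝ := (y / z) ^ 2 with hv0
    have hyz : 0 ≤ y / z := div_nonneg hy hz.le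
    have hv0' : 0 ≤ v0 := sq_nonneg _
    have hsv0 : √v0 = y / z := Real.sqrt_sq hyz
    have hv0τ : v0 < τ := by
      have h1 : y / z < √τ := (div_lt_iff₀ hz).2 h
      have h2 : (y / z) ^ 2 < √τ ^ 2 := by
        apply pow_lt_pow_left₀ h1 hyz (by norm_num)
      rwa [Real.sq_sqrt hτ.le] at h2
    have hiff : ∀ v, 0 < v → (y < √v * z ↔ v0 < v) := by
      intro v hv
      rw [← div_lt_iff₀ hz, ← hsv0]
      exact Real.sqrt_lt_sqrt_iff hv0'
    have e1 : ∫⁻ v in Ioo 0 τ, (if y < √v * z then ENNReal.ofReal (z / (2 * √v)) else 0) =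
        ∫⁻ v in Ioo v0 τ, ENNReal.ofReal (z / (2 * √v)) := by
      rw [← lintegral_indicator measurableSet_Ioo, ← lintegral_indicator measurableSet_Ioo]
      refine lintegral_congr fun v => ?_
      simp only [indicator, mem_Ioo]
      by_cases h1 : 0 < v
      · by_cases h2 : v < τ
        · simp only [h1, h2, and_self, if_true, and_true, hiff v h1]
        · simp only [h2, and_false, if_false]
      · have h3 : ¬ v0 < v := by
          intro h4
          exact h1 (lt_of_le_of_lt hv0' h4)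
        simp only [h1, h3, false_and, if_false]
    rw [e1]
    have hd : ∀ x ∈ Ioo v0 τ, HasDerivAt (fun v => z * √v) (z / (2 * √x)) x := by
      intro x hx
      have hx0 : 0 < x := lt_of_le_of_lt hv0' hx.1
      have := (Real.hasDerivAt_sqrt hx0.ne').const_mul z
      exact this.congr_deriv (by ring)
    have hp : ∀ x ∈ Ioo v0 τ, 0 ≤ z / (2 * √x) := fun x _ => by positivity
    have hc : ContinuousOn (fun v => z * √v) (Icc v0 τ) := by fun_prop
    have hint := intervalIntegral.integrableOn_deriv_of_nonneg hc hd hp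
    have hftc := intervalIntegral.integral_eq_sub_of_hasDerivAt_of_le hv0τ.le hc hd
      ((intervalIntegrable_iff_integrableOn_Ioc_of_le hv0τ.le).2 hint)
    have hint' : IntegrableOn (fun x => z / (2 * √x)) (Ioo v0 τ) := hint.mono_set Ioo_subset_Ioc_self
    have h5 := ofReal_integral_eq_lintegral_ofReal hint'
      ((ae_restrict_iff' measurableSet_Ioo).2 (Eventually.of_forall hp))
    rw [← h5]
    congr 1
    rw [← integral_Ioc_eq_integral_Ioo, ← intervalIntegral.integral_of_le hv0τ.le, hftc]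
    rw [hsv0, mul_div_cancel₀ _ hz.ne']
    ring

lemma G2 {τ : ℝ≥0} (hτ : 0 < τ) {y : ℝ} (hy : 0 ≤ y) :
    ∫⁻ x in Ioi (0 : ℝ), ENNReal.ofReal (2 * max 0 (x - y)) * (2 * gaussianPDF 0 τ x) =
      ∫⁻ v in Ioo (0 : ℝ) τ, 2 * pr v y := by
  classical
  have hτ' : (0 : ℝ) < τ := by exact_mod_cast hτ
  have hs : 0 < √(τ : ℝ) := Real.sqrt_pos.2 hτ'
  -- scaling
  have e1 : ∫⁻ x in Ioi (0 : ℝ), ENNReal.ofReal (2 * max 0 (x - y)) * (2 * gaussianPDF 0 τ x) =
      ∫⁻ z in Ioi (0 : ℝ), ENNReal.ofReal (2 * max 0 (√(τ : ℝ) * z - y)) *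
        (2 * gaussianPDF 0 1 z) := by
    rw [← lintegral_indicator measurableSet_Ioi, ← lintegral_indicator measurableSet_Ioi]
    set F : ℝ → ℝ≥0∞ := (Ioi (0 : ℝ)).indicator fun x =>
      ENNReal.ofReal (2 * max 0 (x - y)) * (2 * gaussianPDF 0 τ x) with hF
    have hFm : Measurable F := by
      refine Measurable.indicator ?_ measurableSet_Ioi
      fun_prop
    have e2 : ∀ z, (Ioi (0 : ℝ)).indicator (fun z =>
        ENNReal.ofReal (2 * max 0 (√(τ : ℝ) * z - y)) * (2 * gaussianPDF 0 1 z)) z =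
        ENNReal.ofReal (√(τ : ℝ)) * F (√(τ : ℝ) * z) := by
      intro z
      simp only [hF, indicator, mem_Ioi, mul_pos_iff_of_pos_left hs]
      split_ifs with h
      · rw [← pr_coe τ, pr_scale hτ', mul_div_cancel_left₀ _ hs.ne']
        have h6 : ENNReal.ofReal (√(τ : ℝ)) * ENNReal.ofReal (√(τ : ℝ))⁻¹ = 1 := by
          rw [← ENNReal.ofReal_mul hs.le, mul_inv_cancel₀ hs.ne', ENNReal.ofReal_one]
        calc _ = (ENNReal.ofReal (√(τ : ℝ)) * ENNReal.ofReal (√(τ : ℝ))⁻¹) *
              (ENNReal.ofReal (2 * max 0 (√(τ : ℝ) * z - y)) * (2 * gaussianPDF 0 1 z)) := by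
                rw [h6, one_mul]
          _ = _ := by ring
      · rw [mul_zero]
    simp_rw [e2]
    rw [lintegral_const_mul' _ _ ENNReal.ofReal_ne_top]
    have e3 : ∫⁻ z, F (√(τ : ℝ) * z) =
        ∫⁻ x, F x ∂(Measure.map (fun x : ℝ => √(τ : ℝ) * x) volume) := by
      rw [lintegral_map hFm (by fun_prop)]
    rw [e3, Real.map_volume_mul_left hs.ne', lintegral_smul_measure, smul_eq_mul, ← mul_assoc,
      ← ENNReal.ofReal_mul hs.le, abs_of_pos (inv_pos.2 hs), mul_inv_cancel₀ hs.ne',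
      ENNReal.ofReal_one, one_mul]
  rw [e1]
  have e4 : ∫⁻ z in Ioi (0 : ℝ), ENNReal.ofReal (2 * max 0 (√(τ : ℝ) * z - y)) *
        (2 * gaussianPDF 0 1 z) = ∫⁻ z in Ioi (0 : ℝ), ∫⁻ v in Ioo (0 : ℝ) τ,
        (if y < √v * z then ENNReal.ofReal (2 * (z / (2 * √v))) else 0) *
          (2 * gaussianPDF 0 1 z) := by
    refine setLIntegral_congr_fun measurableSet_Ioi fun z hz => ?_
    have hz' : 0 < z := hz
    have hm : Measurable fun v : ℝ =>
        (if y < √v * z then ENNReal.ofReal (2 * (z / (2 * √v))) else 0) := by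
      refine Measurable.ite ?_ (by fun_prop) measurable_const
      exact measurableSet_lt measurable_const (by fun_prop)
    rw [lintegral_mul_const _ hm]
    congr 1
    rw [ENNReal.ofReal_mul (by norm_num), ← fv hz' hy hτ',
      ← lintegral_const_mul' _ _ ENNReal.ofReal_ne_top]
    refine lintegral_congr fun v => ?_
    split_ifs
    · rw [ENNReal.ofReal_mul (by norm_num)]
    · rw [mul_zero]
  rw [e4, lintegral_lintegral_swap]
  swap
  · refine Measurable.aemeasurable ?_
    simp only [Function.uncurry_def]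
    refine Measurable.mul ?_ (by fun_prop)
    refine Measurable.ite ?_ (by fun_prop) measurable_const
    exact measurableSet_lt measurable_const (by fun_prop)
  refine setLIntegral_congr_fun measurableSet_Ioo fun v hv => ?_
  have hv0 : 0 < v := hv.1
  have hsv : 0 < √v := Real.sqrt_pos.2 hv0
  have hyv : 0 ≤ y / √v := div_nonneg hy hsv.le
  rw [pr_scale hv0, ← tail one_ne_zero hyv]
  have e5 : ∫⁻ z in Ioi (0 : ℝ), (if y < √v * z then ENNReal.ofReal (2 * (z / (2 * √v))) else 0) *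
      (2 * gaussianPDF 0 1 z) = ∫⁻ z in Ioi (y / √v), (2 * ENNReal.ofReal (√v)⁻¹) * qq 1 z := by
    rw [← lintegral_indicator measurableSet_Ioi, ← lintegral_indicator measurableSet_Ioi]
    refine lintegral_congr fun z => ?_
    simp only [indicator, mem_Ioi]
    have h7 : y < √v * z ↔ y / √v < z := by
      rw [div_lt_iff₀ hsv, mul_comm]
    by_cases h8 : y / √v < z
    · have hz : 0 < z := lt_of_le_of_lt hyv h8
      rw [if_pos hz, if_pos (h7.2 h8), if_pos h8]
      unfold qq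
      have : 2 * (z / (2 * √v)) = (√v)⁻¹ * z := by field_simp
      rw [this, ENNReal.ofReal_mul (by positivity)]
      simp only [NNReal.coe_one, div_one]
      ring
    · rw [if_neg h8]
      split_ifs with h9 h10
      · exact absurd (h7.1 h10) h8
      · rw [zero_mul]
      · rfl
  rw [e5, lintegral_const_mul _ (meas_qq 1), mul_assoc]

end gauss

section kernels

/-- `E 1 / R'` -/
noncomputable def H2 (q : (ℝ × ℝ) × (ℝ × ℝ)) : ℝ≥0∞ := ENNReal.ofReal (1 / (Psi q.1 q.2).2)

/-- `E 2 (S' - S)` -/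
noncomputable def H1 (q : (ℝ × ℝ) × (ℝ × ℝ)) : ℝ≥0∞ := ENNReal.ofReal (2 * ((Psi q.1 q.2).1 - q.1.1))

lemma meas_H2 : Measurable H2 := by
  unfold H2
  have := meas_Psi
  fun_prop

lemma meas_H1 : Measurable H1 := by
  unfold H1
  have := meas_Psi
  fun_prop

lemma H2_double {r ρ : ℝ} (hr : 0 < r) (hρ : 0 < ρ) :
    ENNReal.ofReal (r * ρ) *
      ∫⁻ u in Ioo (0 : ℝ) 1, ∫⁻ v in Ioo (0 : ℝ) 1, H2 ((u * r, r), (v * ρ, ρ)) =
      ENNReal.ofReal (min r ρ) := by
  have h := double (g := fun q => ENNReal.ofReal (1 / q.2)) (by fun_prop) hr hρ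
  simp only [Lam_snd (fun x => ENNReal.ofReal (1 / x))] at h
  unfold H2
  simp only
  rw [h]
  have : ∫⁻ z in Ioo 0 (min r ρ), ENNReal.ofReal (r + ρ - 2 * z) *
      ENNReal.ofReal (1 / (r + ρ - 2 * z)) = ∫⁻ _z in Ioo 0 (min r ρ), 1 := by
    refine setLIntegral_congr_fun measurableSet_Ioo fun z hz => ?_
    have h1 := lt_min_iff.1 hz.2
    have h2 : 0 < r + ρ - 2 * z := by linarith [h1.1, h1.2]
    rw [← ENNReal.ofReal_mul h2.le, mul_one_div_cancel h2.ne', ENNReal.ofReal_one]
  rw [this, setLIntegral_const, Real.volume_Ioo, sub_zero, one_mul]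

lemma min_eq_lint {r ρ : ℝ} :
    ENNReal.ofReal (min r ρ) = ∫⁻ y in Ioo 0 r, if y < ρ then 1 else 0 := by
  classical
  have : ∀ y, (if y < ρ then (1 : ℝ≥0∞) else 0) = (Iio ρ).indicator 1 y := by
    intro y
    simp only [indicator, mem_Iio, Pi.one_apply]
  simp_rw [this]
  rw [lintegral_indicator_one measurableSet_Iio, Measure.restrict_apply measurableSet_Iio,
    inter_comm, Ioo_inter_Iio, Real.volume_Ioo, sub_zero]

lemma Jform {v : ℝ≥0} (hv : 0 < v) {r : ℝ} (hr : 0 ≤ r) :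
    Lam (Ker v H2) r = ∫⁻ u in Ioo (0 : ℝ) 1, 2 * gaussianPDF 0 v (u * r) := by
  classical
  rw [Lam_Ker meas_H2]
  rcases hr.eq_or_lt with h | h
  · subst h
    have e : ∀ ρ ∈ Ioi (0 : ℝ), kap v ρ * ∫⁻ u in Ioo (0 : ℝ) 1, ∫⁻ v in Ioo (0 : ℝ) 1,
        H2 ((u * 0, 0), (v * ρ, ρ)) = 2 * qq v ρ := by
      intro ρ hρ
      have hρ' : 0 < ρ := hρ
      have e1 : ∀ w ∈ Ioo (0 : ℝ) 1, H2 ((0, 0), (w * ρ, ρ)) = ENNReal.ofReal (1 / ρ) := by
        intro w hw
        unfold H2 Psi
        have : 0 < w * ρ := mul_pos hw.1 hρ'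
        simp only
        rw [max_eq_right (by linarith)]
        congr 2
        ring
      simp only [mul_zero]
      have e2 : ∫⁻ w in Ioo (0 : ℝ) 1, H2 ((0, 0), (w * ρ, ρ)) = ENNReal.ofReal (1 / ρ) := by
        rw [setLIntegral_congr_fun measurableSet_Ioo e1]
        simp
      simp only [e2]
      unfold kap
      rw [setLIntegral_const, Real.volume_Ioo, sub_zero, ENNReal.ofReal_one, mul_one, mul_assoc,
        ← ENNReal.ofReal_mul hρ'.le, mul_one_div_cancel hρ'.ne', ENNReal.ofReal_one, mul_one]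
    rw [setLIntegral_congr_fun measurableSet_Ioi e, lintegral_const_mul _ (meas_qq v),
      tail hv.ne' le_rfl]
    simp
  · have h1 : ENNReal.ofReal r ≠ 0 := (ENNReal.ofReal_pos.2 h).ne'
    rw [← ENNReal.mul_right_inj h1 ENNReal.ofReal_ne_top, ← lintegral_const_mul' _ _
      ENNReal.ofReal_ne_top, ← scale (h := fun y => 2 * gaussianPDF 0 v y) (by fun_prop) h]
    have e : ∀ ρ ∈ Ioi (0 : ℝ), ENNReal.ofReal r * (kap v ρ * ∫⁻ u in Ioo (0 : ℝ) 1,
        ∫⁻ v in Ioo (0 : ℝ) 1, H2 ((u * r, r), (v * ρ, ρ))) =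
        ∫⁻ y in Ioo 0 r, if y < ρ then 2 * qq v ρ else 0 := by
      intro ρ hρ
      have hρ' : 0 < ρ := hρ
      have e3 : ∀ y, (if y < ρ then 2 * qq v ρ else 0) = 2 * qq v ρ * (if y < ρ then 1 else 0) := by
        intro y
        split_ifs <;> simp
      simp_rw [e3]
      rw [lintegral_const_mul, ← min_eq_lint, ← H2_double h hρ', ENNReal.ofReal_mul h.le]
      · unfold kap
        ring
      · exact Measurable.ite (measurableSet_lt measurable_id measurable_const) measurable_const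
          measurable_const
    rw [setLIntegral_congr_fun measurableSet_Ioi e, lintegral_lintegral_swap]
    swap
    · refine Measurable.aemeasurable ?_
      simp only [Function.uncurry_def]
      refine Measurable.ite ?_ (by fun_prop) measurable_const
      exact measurableSet_lt (by fun_prop) (by fun_prop)
    refine setLIntegral_congr_fun measurableSet_Ioo fun y hy => ?_
    have hy0 : 0 < y := hy.1
    rw [← tail hv.ne' hy0.le, ← lintegral_const_mul _ (meas_qq v),
      ← lintegral_indicator measurableSet_Ioi, ← lintegral_indicator measurableSet_Ioi]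
    refine lintegral_congr fun ρ => ?_
    simp only [indicator, mem_Ioi]
    by_cases h2 : y < ρ
    · rw [if_pos (hy0.trans h2)]
    · rw [if_neg h2]
      simp

/-- `E 2 (m - y)^+` -/
lemma Mform {τ : ℝ≥0} (hτ : 0 < τ) {y : ℝ} (hy : 0 ≤ y) :
    ∫⁻ ρ in Ioi (0 : ℝ), kap τ ρ * ∫⁻ w in Ioo (0 : ℝ) 1, ENNReal.ofReal (2 * max 0 (w * ρ - y)) =
      ∫⁻ v in Ioo (0 : ℝ) τ, 2 * pr v y := by
  classical
  rw [← G2 hτ hy]
  have e : ∀ ρ ∈ Ioi (0 : ℝ), kap τ ρ * ∫⁻ w in Ioo (0 : ℝ) 1,
      ENNReal.ofReal (2 * max 0 (w * ρ - y)) =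
      ∫⁻ x in Ioi (0 : ℝ), if x < ρ then 2 * qq τ ρ * ENNReal.ofReal (2 * max 0 (x - y)) else 0 := by
    intro ρ hρ
    have hρ' : 0 < ρ := hρ
    have h1 := scale (h := fun x => ENNReal.ofReal (2 * max 0 (x - y))) (by fun_prop) hρ'
    unfold kap
    rw [mul_assoc, ← h1, ← lintegral_const_mul _ (by fun_prop),
      ← lintegral_indicator measurableSet_Ioo, ← lintegral_indicator measurableSet_Ioi]
    refine lintegral_congr fun x => ?_
    simp only [indicator, mem_Ioo, mem_Ioi]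
    by_cases h2 : 0 < x
    · by_cases h3 : x < ρ
      · simp [h2, h3]
      · simp [h3]
    · simp [h2]
  rw [setLIntegral_congr_fun measurableSet_Ioi e, lintegral_lintegral_swap]
  swap
  · refine Measurable.aemeasurable ?_
    simp only [Function.uncurry_def]
    refine Measurable.ite ?_ (by fun_prop) measurable_const
    exact measurableSet_lt (by fun_prop) (by fun_prop)
  refine setLIntegral_congr_fun measurableSet_Ioi fun x hx => ?_
  have hx0 : 0 < x := hx
  rw [← tail hτ.ne' hx0.le, ← lintegral_const_mul _ (meas_qq τ),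
    ← lintegral_const_mul _ (by fun_prop),
    ← lintegral_indicator measurableSet_Ioi, ← lintegral_indicator measurableSet_Ioi]
  refine lintegral_congr fun ρ => ?_
  simp only [indicator, mem_Ioi]
  by_cases h2 : x < ρ
  · rw [if_pos (hx0.trans h2), if_pos h2, if_pos h2]
    ring
  · rw [if_neg h2, if_neg h2]
    simp

lemma H1_eq (s r w ρ : ℝ) : H1 ((s, r), (w * ρ, ρ)) = ENNReal.ofReal (2 * max 0 (w * ρ - (r - s))) := by
  unfold H1 Psi
  simp only
  congr 2
  rw [← max_sub_sub_right, sub_self]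
  congr 1
  ring

lemma Lform {τ : ℝ≥0} (hτ : 0 < τ) {r : ℝ} (hr : 0 ≤ r) :
    Lam (Ker τ H1) r = ∫⁻ u in Ioo (0 : ℝ) 1, ∫⁻ v in Ioo (0 : ℝ) τ, 2 * pr v (u * r) := by
  classical
  have hp : Measurable (fun q : ℝ × ℝ => pr q.2 (q.1 * r)) :=
    meas_pr.comp (f := fun q : ℝ × ℝ => (q.2, q.1 * r)) (by fun_prop)
  have e1 : Lam (Ker τ H1) r =
      ∫⁻ u in Ioo (0 : ℝ) 1, ∫⁻ v in Ioo (0 : ℝ) τ, 2 * pr v ((1 - u) * r) := by
    unfold Lam
    refine setLIntegral_congr_fun measurableSet_Ioo fun u hu => ?_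
    rw [← Mform hτ (mul_nonneg (by linarith [hu.2]) hr)]
    unfold Ker Lam
    simp only [H1_eq]
    refine lintegral_congr fun ρ => ?_
    congr 1
    refine lintegral_congr fun w => ?_
    congr 3
    ring
  rw [e1, ← lintegral_indicator measurableSet_Ioo, ← lintegral_indicator measurableSet_Ioo,
    ← lintegral_sub_left_eq_self _ (1 : ℝ)]
  refine lintegral_congr fun u => ?_
  simp only [indicator, mem_Ioo]
  have : (0 < 1 - u ∧ 1 - u < 1) ↔ (0 < u ∧ u < 1) := by
    constructor <;> rintro ⟨h1, h2⟩ <;> constructor <;> linarith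
  simp only [this, sub_sub_cancel]

/-- the kernel identity behind the martingale property of `R - ∫ 1 / R` -/
lemma key_id {τ : ℝ≥0} (hτ : 0 < τ) {r : ℝ} (hr : 0 ≤ r) :
    Lam (Ker τ H1) r = ∫⁻ v in Ioo (0 : ℝ) τ, Lam (Ker v.toNNReal H2) r := by
  have hp : Measurable (fun q : ℝ × ℝ => pr q.2 (q.1 * r)) :=
    meas_pr.comp (f := fun q : ℝ × ℝ => (q.2, q.1 * r)) (by fun_prop)
  rw [Lform hτ hr, lintegral_lintegral_swap]
  swap
  · refine Measurable.aemeasurable ?_
    simp only [Function.uncurry_def]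
    fun_prop
  refine setLIntegral_congr_fun measurableSet_Ioo fun v hv => ?_
  rw [Jform (Real.toNNReal_pos.2 hv.1) hr]
  rfl

end kernels

end Pool.Agent.J4H99.PT
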