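import Pool.Agent.J4H99.PT.AC
import Pool.Agent.Helper41.Exist

/-!
# The counterexample (MP_e3daee_pr)
-/

set_option autoImplicit false

open MeasureTheory ProbabilityTheory Filter Topology Set
open scoped ENNReal NNReal

namespace Pool.Agent.J4H99.PT

section filt

variable {Ω : Type*} [mΩ : MeasurableSpace Ω] {P : Measure Ω}

/-- the filtration generated by `X` and the null sets -/
def cmpl (P : Measure Ω) [P.IsComplete] (X : ℝ≥0 → Ω → ℝ) (hX : ∀ t, Measurable (X t)) :
    Filtration ℝ≥0 mΩ where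
  seq t := eventuallyMeasurableSpace (raw X t) (ae P)
  mono' := by
    intro s t hst E hE
    obtain ⟨E', hE', h⟩ := hE
    exact ⟨E', raw_mono X hst _ hE', h⟩
  le' := by
    intro t E hE
    obtain ⟨E', hE', h⟩ := hE
    have h1 : MeasurableSet E' := raw_le (fun u _ => hX u) _ hE'
    have h2 : NullMeasurableSet E P := ⟨E', h1, h⟩
    exact h2.measurable_of_complete

lemma cmpl_null [P.IsComplete] {X : ℝ≥0 → Ω → ℝ} (hX : ∀ t, Measurable (X t)) (t : ℝ≥0) {E : Set Ω}
    (hE : P E = 0) : MeasurableSet[cmpl P X hX t] E :=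
  ⟨∅, @MeasurableSet.empty _ (raw X t), measure_eq_zero_iff_ae_notMem.1 hE |>.mono fun ω hω => by
    simp only [eq_iff_iff]
    exact ⟨fun h => absurd h hω, fun h => absurd h (by exact id)⟩⟩

lemma cmpl_meas [P.IsComplete] {X : ℝ≥0 → Ω → ℝ} (hX : ∀ t, Measurable (X t)) {t : ℝ≥0}
    {f g : Ω → ℝ} (hf : Measurable[raw X t] f) (h : g =ᵐ[P] f) :
    StronglyMeasurable[cmpl P X hX t] g := by
  have h1 : Measurable[cmpl P X hX t] g := by
    intro s hs
    refine ⟨f ⁻¹' s, hf hs, ?_⟩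
    filter_upwards [h] with ω hω
    simp only [eq_iff_iff]
    show g ω ∈ s ↔ f ω ∈ s
    rw [hω]
  exact h1.stronglyMeasurable

/-- a criterion for martingales -/
lemma mart_of [IsProbabilityMeasure P] [P.IsComplete] {X Z : ℝ≥0 → Ω → ℝ}
    (hX : ∀ t, Measurable (X t)) (had : StronglyAdapted (cmpl P X hX) Z)
    (hint : ∀ t, Integrable (Z t) P)
    (hset : ∀ s t, s ≤ t → ∀ E, MeasurableSet[raw X s] E →
      ∫ ω in E, Z s ω ∂P = ∫ ω in E, Z t ω ∂P) :
    Martingale Z (cmpl P X hX) P := by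
  refine ⟨had, fun s t hst => ?_⟩
  symm
  refine ae_eq_condExp_of_forall_setIntegral_eq ((cmpl P X hX).le s) (hint t)
    (fun E _ _ => (hint s).integrableOn) ?_ (had s).aestronglyMeasurable
  rintro E ⟨E', hE', h⟩ _
  rw [setIntegral_congr_set h, setIntegral_congr_set h]
  exact hset s t hst E' hE'

end filt

section pieces

variable {Ω : Type*} [mΩ : MeasurableSpace Ω] {P : Measure Ω} {B : ℝ≥0 → Ω → ℝ}

lemma set_fut (hB : BM B P) {s t : ℝ≥0} (hst : s ≤ t) {E : Set Ω} (hE : MeasurableSet[raw B s] E)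
    {f : ℝ → ℝ} (hf : Measurable f) (hi : Integrable (fun ω => f (shB B s (t - s) ω)) P) :
    ∫ ω in E, f (shB B s (t - s) ω) ∂P = P.real E * ∫ ω, f (shB B s (t - s) ω) ∂P := by
  have := hB.prob
  have hle := hB.raw_le s
  have h1 : P[fun ω => f (shB B s (t - s) ω) | raw B s] =ᵐ[P]
      fun _ => ∫ ω, f (shB B s (t - s) ω) ∂P :=
    condExp_indep_eq (hB.fut_le s) hle
      (Measurable.stronglyMeasurable (hf.comp (meas_fut B s (t - s)))) (hB.indep s).symm
  rw [← setIntegral_condExp hle hi hE, setIntegral_congr_ae (g := fun _ =>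
    ∫ ω, f (shB B s (t - s) ω) ∂P) (hle _ hE) (h1.mono fun ω hω _ => hω), setIntegral_const,
    smul_eq_mul]

lemma int_shB (hB : BM B P) (s t : ℝ≥0) : Integrable (shB B s t) P := (hB.shift s).pre.integrable_eval t

lemma mean_shB (hB : BM B P) (s t : ℝ≥0) : ∫ ω, shB B s t ω ∂P = 0 := (hB.shift s).pre.integral_eval t

lemma memLp_B (hB : BM B P) (t : ℝ≥0) : MemLp (B t) 2 P :=
  (hB.pre.isGaussianProcess.hasGaussianLaw_eval t).memLp_two

lemma sq_shB (hB : BM B P) (s t : ℝ≥0) : ∫ ω, shB B s t ω ^ 2 ∂P = t := by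
  rw [← variance_of_integral_eq_zero ((hB.shift s).meas t).aemeasurable (mean_shB hB s t),
    ((hB.shift s).pre.hasLaw_eval t).variance_eq, variance_id_gaussianReal]

lemma B_split (B : ℝ≥0 → Ω → ℝ) {s t : ℝ≥0} (hst : s ≤ t) (ω : Ω) :
    B t ω = B s ω + shB B s (t - s) ω := by
  unfold shB
  rw [add_tsub_cancel_of_le hst]
  ring

lemma set_B (hB : BM B P) {s t : ℝ≥0} (hst : s ≤ t) {E : Set Ω} (hE : MeasurableSet[raw B s] E) :
    ∫ ω in E, B s ω ∂P = ∫ ω in E, B t ω ∂P := by
  have h1 := set_fut hB hst hE (f := fun x => x) measurable_id (int_shB hB s (t - s))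
  simp only [mean_shB hB, mul_zero] at h1
  have h2 : ∫ ω in E, B t ω ∂P = ∫ ω in E, (B s ω + shB B s (t - s) ω) ∂P :=
    integral_congr_ae (Eventually.of_forall fun ω => B_split B hst ω)
  rw [h2, integral_add (hB.pre.integrable_eval s).integrableOn (int_shB hB s (t - s)).integrableOn,
    h1, add_zero]

lemma set_B2 (hB : BM B P) {s t : ℝ≥0} (hst : s ≤ t) {E : Set Ω} (hE : MeasurableSet[raw B s] E) :
    ∫ ω in E, (B s ω ^ 2 - s) ∂P = ∫ ω in E, (B t ω ^ 2 - t) ∂P := by
  have := hB.prob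
  have hE' := hB.raw_le s _ hE
  set D := shB B s (t - s) with hD
  have hDi : Integrable D P := int_shB hB s (t - s)
  have hDm : Measurable D := (hB.shift s).meas _
  have hD2 : Integrable (fun ω => D ω ^ 2) P := ((memLp_B (hB.shift s) (t - s)).integrable_sq)
  have hB2 : ∀ u, Integrable (fun ω => B u ω ^ 2) P := fun u => (memLp_B hB u).integrable_sq
  have hBD : Integrable (fun ω => B s ω * D ω) P :=
    (memLp_B hB s).integrable_mul (memLp_B (hB.shift s) (t - s))
  have h1 : ∫ ω in E, D ω ^ 2 ∂P = P.real E * ((t : ℝ) - s) := by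
    have h2 := set_fut hB hst hE (f := fun x => x ^ 2) (by fun_prop) hD2
    rw [h2, sq_shB hB, NNReal.coe_sub hst]
  have h3 : ∫ ω in E, B s ω * D ω ∂P = 0 := by
    have hind : IndepFun (E.indicator (B s)) D P := by
      rw [IndepFun_iff_Indep]
      refine indep_of_indep_of_le_left (indep_of_indep_of_le_right (hB.indep s) ?_) ?_
      · exact (meas_fut B s (t - s)).comap_le
      · exact (Measurable.indicator (meas_raw (X := B) le_rfl) hE).comap_le
    have h4 := hind.integral_fun_mul_eq_mul_integral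
      ((hB.meas s).indicator hE').aestronglyMeasurable hDm.aestronglyMeasurable
    have h5 : ∫ ω, D ω ∂P = 0 := mean_shB hB s _
    rw [h5, mul_zero] at h4
    rw [← h4, ← integral_indicator hE']
    refine integral_congr_ae (Eventually.of_forall fun ω => ?_)
    simp only [indicator]
    split_ifs <;> simp
  have h6 : ∫ ω in E, (B t ω ^ 2 - t) ∂P =
      ∫ ω in E, ((B s ω ^ 2 - s) + (D ω ^ 2 + (2 * (B s ω * D ω) + (s - t)))) ∂P := by
    refine integral_congr_ae (Eventually.of_forall fun ω => ?_)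
    simp only
    rw [B_split B hst ω]
    ring
  rw [h6, integral_add, integral_add, integral_add, h1, integral_const_mul, h3, setIntegral_const,
    smul_eq_mul]
  · ring
  · exact (hBD.const_mul 2).integrableOn
  · exact (integrable_const _).integrableOn
  · exact hD2.integrableOn
  · exact ((hBD.const_mul 2).add (integrable_const _)).integrableOn
  · exact ((hB2 s).sub (integrable_const _)).integrableOn
  · exact (hD2.add ((hBD.const_mul 2).add (integrable_const _))).integrableOn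

lemma int_SS (hB : BM B P) (t : ℝ≥0) : Integrable (SS B t) P := by
  have h1 : Integrable (fun ω => 2 * SS B t ω) P := by
    refine ⟨((hB.meas_SS t).const_mul 2).aestronglyMeasurable, ?_⟩
    rw [hasFiniteIntegral_iff_ofReal]
    · exact fin_S hB t
    · refine Eventually.of_forall fun ω => ?_
      have := hB.SS_nonneg t ω
      simp only [Pi.zero_apply]
      positivity
  refine (h1.const_mul (1 / 2)).congr (Eventually.of_forall fun ω => ?_)
  simp only
  ring

lemma YY_mono (hB : BM B P) {s t : ℝ≥0} (h : s ≤ t) (ω : Ω) : YY B s ω ≤ YY B t ω := by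
  unfold YY
  refine lintegral_mono_set (Ioo_subset_Ioo le_rfl ?_)
  exact_mod_cast h

/-- the good event -/
def Gam (B : ℝ≥0 → Ω → ℝ) : Set Ω := {ω | ∀ n : ℕ, YY B n ω < ∞}

lemma Gam_fin (hB : BM B P) {ω : Ω} (h : ω ∈ Gam B) (t : ℝ≥0) : YY B t ω < ∞ := by
  obtain ⟨n, hn⟩ := exists_nat_ge t
  exact lt_of_le_of_lt (YY_mono hB hn ω) (h n)

lemma int_YY (hB : BM B P) (t : ℝ≥0) : Integrable (fun ω => (YY B t ω).toReal) P :=
  integrable_toReal_of_lintegral_ne_top (meas_YY hB t).aemeasurable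
    (by rw [lint_YY hB]; exact (fin_S hB t).ne)

lemma set_SY (hB : BM B P) {s t : ℝ≥0} (hst : s ≤ t) {E : Set Ω}
    (hE : MeasurableSet[raw (RR B) s] E) :
    ∫ ω in E, (2 * SS B s ω - (YY B s ω).toReal) ∂P =
      ∫ ω in E, (2 * SS B t ω - (YY B t ω).toReal) ∂P := by
  rcases hst.eq_or_lt with h | h
  · rw [h]
  set τ := t - s with hτ
  have hτ0 : 0 < τ := tsub_pos_of_lt h
  have ht : t = s + τ := (add_tsub_cancel_of_le hst).symm
  have hE' : MeasurableSet E := hB.raw_le s _ (raw_RR_le hB s _ hE)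
  have h1 := ident hB hτ0 hE
  set f2 : Ω → ℝ≥0∞ := fun ω =>
    ∫⁻ v in Ioo (0 : ℝ) τ, ENNReal.ofReal (1 / RR B (s + v.toNNReal) ω) with hf2
  have hadd : ∀ ω, YY B t ω = YY B s ω + f2 ω := by
    intro ω
    rw [ht, YY_add hB]
  have hSnn : ∀ ω, 0 ≤ 2 * (SS B (s + τ) ω - SS B s ω) := by
    intro ω
    have : SS B s ω ≤ SS B (s + τ) ω := mx_mono (hB.cont ω) le_self_add
    linarith
  have hSi : Integrable (fun ω => 2 * (SS B (s + τ) ω - SS B s ω)) P :=
    ((int_SS hB _).sub (int_SS hB _)).const_mul 2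
  have h2 : ∫ ω in E, 2 * (SS B (s + τ) ω - SS B s ω) ∂P = (∫⁻ ω in E, f2 ω ∂P).toReal := by
    rw [← h1, integral_eq_lintegral_of_nonneg_ae (Eventually.of_forall hSnn)
      hSi.integrableOn.1]
  have hf2m : Measurable f2 := by
    have hj : Measurable fun q : ℝ × Ω => RR B (s + q.1.toNNReal) q.2 :=
      joint (X := fun u ω => RR B (s + u) ω) (m := mΩ)
        (fun ω => (cont_RR hB ω).comp (continuous_const.add continuous_id))
        (fun u => hB.meas_RR _)
    have hj2 : Measurable fun q : ℝ × Ω => ENNReal.ofReal (1 / RR B (s + q.1.toNNReal) q.2) := by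
      have h0 : Measurable fun x : ℝ => ENNReal.ofReal (1 / x) := by fun_prop
      exact h0.comp hj
    exact hj2.lintegral_prod_left'
  have hfin : ∀ᵐ ω ∂P, f2 ω < ∞ := by
    filter_upwards [ae_YY hB] with ω hω
    have := Gam_fin hB (ω := ω) hω t
    rw [hadd] at this
    exact lt_of_le_of_lt le_add_self this
  have h3 : ∫ ω in E, (f2 ω).toReal ∂P = (∫⁻ ω in E, f2 ω ∂P).toReal :=
    integral_toReal hf2m.aemeasurable (ae_restrict_of_ae hfin)
  have h4 : ∀ᵐ ω ∂P, (f2 ω).toReal = (YY B t ω).toReal - (YY B s ω).toReal := by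
    filter_upwards [ae_YY hB, hfin] with ω hω hω2
    have h5 := Gam_fin hB (ω := ω) hω s
    rw [hadd, ENNReal.toReal_add h5.ne hω2.ne]
    ring
  have h5 : ∫ ω in E, (f2 ω).toReal ∂P =
      ∫ ω in E, ((YY B t ω).toReal - (YY B s ω).toReal) ∂P :=
    integral_congr_ae (ae_restrict_of_ae h4)
  have hYi : Integrable (fun ω => (YY B t ω).toReal - (YY B s ω).toReal) P :=
    (int_YY hB t).sub (int_YY hB s)
  have h6 : ∫ ω in E, (2 * (SS B (s + τ) ω - SS B s ω) -
      ((YY B t ω).toReal - (YY B s ω).toReal)) ∂P = 0 := by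
    rw [integral_sub hSi.integrableOn hYi.integrableOn, h2, ← h5, h3, sub_self]
  have h7 : Integrable (fun ω => 2 * SS B s ω - (YY B s ω).toReal) P :=
    ((int_SS hB s).const_mul 2).sub (int_YY hB s)
  have h8 : Integrable (fun ω => 2 * (SS B (s + τ) ω - SS B s ω) -
      ((YY B t ω).toReal - (YY B s ω).toReal)) P := hSi.sub ((int_YY hB t).sub (int_YY hB s))
  have h9 : ∫ ω in E, (2 * SS B t ω - (YY B t ω).toReal) ∂P =
      ∫ ω in E, ((2 * SS B s ω - (YY B s ω).toReal) + (2 * (SS B (s + τ) ω - SS B s ω) -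
      ((YY B t ω).toReal - (YY B s ω).toReal))) ∂P := by
    refine integral_congr_ae (Eventually.of_forall fun ω => ?_)
    simp only [← ht]
    ring
  rw [h9, integral_add h7.integrableOn h8.integrableOn, h6, add_zero]

end pieces

section paths

variable {Ω : Type*} [mΩ : MeasurableSpace Ω] {P : Measure Ω} {B : ℝ≥0 → Ω → ℝ}

lemma cont_YY (hB : BM B P) {ω : Ω} (h : ω ∈ Gam B) : Continuous fun t : ℝ≥0 => (YY B t ω).toReal := by
  set f : ℝ → ℝ := fun v => 1 / RR B v.toNNReal ω with hf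
  have hfm : Measurable f := by
    have h2 : Continuous fun v : ℝ => RR B v.toNNReal ω :=
      (cont_RR hB ω).comp continuous_real_toNNReal
    exact measurable_const.div h2.measurable
  have hf0 : ∀ v, 0 ≤ f v := fun v => div_nonneg zero_le_one (RR_nonneg hB _ ω)
  have hneg : ∀ v ≤ 0, f v = 0 := by
    intro v hv
    simp only [hf]
    rw [Real.toNNReal_of_nonpos hv, RR_zero hB, div_zero]
  have hon : ∀ n : ℕ, IntegrableOn f (Icc (-(n : ℝ)) n) := by
    intro n
    have h1 : IntegrableOn f (Ioo (0 : ℝ) n) := by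
      refine ⟨hfm.aestronglyMeasurable, ?_⟩
      rw [hasFiniteIntegral_iff_ofReal (Eventually.of_forall hf0)]
      have h5 := h n
      unfold YY at h5
      rw [NNReal.coe_natCast] at h5
      exact h5
    have h2 : IntegrableOn f (Icc (-(n : ℝ)) 0) := by
      refine (integrableOn_zero (μ := volume) (s := Icc (-(n : ℝ)) 0)).congr_fun (fun v hv => ?_)
        measurableSet_Icc
      exact (hneg v hv.2).symm
    have h3 : IntegrableOn f {(n : ℝ)} := by
      rw [integrableOn_singleton_iff]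
      right
      simp
    refine ((h2.union h1).union h3).mono_set ?_
    intro x hx
    rcases le_or_gt x 0 with h4 | h4
    · exact Or.inl (Or.inl ⟨hx.1, h4⟩)
    · rcases hx.2.eq_or_lt with h5 | h5
      · exact Or.inr h5
      · exact Or.inl (Or.inr ⟨h4, h5⟩)
  have hii : ∀ a b : ℝ, IntervalIntegrable f volume a b := by
    intro a b
    obtain ⟨n, hn⟩ := exists_nat_ge (max |a| |b|)
    have ha := (le_max_left |a| |b|).trans hn
    have hb := (le_max_right |a| |b|).trans hn
    rw [abs_le] at ha hb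
    rw [intervalIntegrable_iff]
    refine (hon n).mono_set ?_
    intro x hx
    rw [mem_uIoc] at hx
    rcases hx with hx | hx
    · exact ⟨by linarith [hx.1], by linarith [hx.2]⟩
    · exact ⟨by linarith [hx.1], by linarith [hx.2]⟩
  have hc := intervalIntegral.continuous_primitive hii 0
  have e : (fun t : ℝ≥0 => (YY B t ω).toReal) = fun t : ℝ≥0 => ∫ x in (0 : ℝ)..(t : ℝ), f x := by
    funext t
    rw [intervalIntegral.integral_of_le (NNReal.coe_nonneg t), integral_Ioc_eq_integral_Ioo,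
      integral_eq_lintegral_of_nonneg_ae (Eventually.of_forall hf0) hfm.aestronglyMeasurable]
    rfl
  rw [e]
  exact hc.comp NNReal.continuous_coe

lemma null_eq (hB : BM B P) {t : ℝ≥0} (ht : 0 < t) : P {ω | SS B t ω = B t ω} = 0 := by
  have hm : Measurable (fun ω => (SS B t ω, B t ω)) := (hB.meas_SS t).prodMk (hB.meas t)
  have hs : MeasurableSet {z : ℝ × ℝ | z.1 = z.2} := measurableSet_eq_fun measurable_fst measurable_snd
  have h1 : P {ω | SS B t ω = B t ω} = P.map (fun ω => (SS B t ω, B t ω)) {z | z.1 = z.2} := by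
    rw [Measure.map_apply hm hs]
    rfl
  rw [h1, law_SB hB ht]
  unfold mu2
  rw [withDensity_apply _ hs]
  have : ∫⁻ z in {z : ℝ × ℝ | z.1 = z.2}, dens t z = ∫⁻ _z in {z : ℝ × ℝ | z.1 = z.2}, 0 := by
    refine setLIntegral_congr_fun hs fun z hz => ?_
    unfold dens
    rw [if_neg]
    intro h
    have hz' : z.1 = z.2 := hz
    linarith [h.2]
  rw [this, lintegral_zero]

lemma null_neg (hB : BM B P) {t : ℝ≥0} (ht : 0 < t) : P {ω | SS B t ω ≤ 0} = 0 := by
  have hm : Measurable (fun ω => (SS B t ω, B t ω)) := (hB.meas_SS t).prodMk (hB.meas t)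
  have hs : MeasurableSet {z : ℝ × ℝ | z.1 ≤ 0} := measurableSet_le measurable_fst measurable_const
  have h1 : P {ω | SS B t ω ≤ 0} = P.map (fun ω => (SS B t ω, B t ω)) {z | z.1 ≤ 0} := by
    rw [Measure.map_apply hm hs]
    rfl
  rw [h1, law_SB hB ht]
  unfold mu2
  rw [withDensity_apply _ hs]
  have : ∫⁻ z in {z : ℝ × ℝ | z.1 ≤ 0}, dens t z = ∫⁻ _z in {z : ℝ × ℝ | z.1 ≤ 0}, 0 := by
    refine setLIntegral_congr_fun hs fun z hz => ?_
    unfold dens
    rw [if_neg]
    intro h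
    have hz' : z.1 ≤ 0 := hz
    linarith [h.1]
  rw [this, lintegral_zero]

lemma ae_contact (hB : BM B P) :
    ∀ᵐ ω ∂P, volume {v : ℝ | v ∈ Ioo (0 : ℝ) (1 : ℝ≥0) ∧ SS B v.toNNReal ω = B v.toNNReal ω} = 0 := by
  classical
  have := hB.prob
  have j1 : Measurable fun q : ℝ × Ω => SS B q.1.toNNReal q.2 :=
    joint (X := SS B) (m := mΩ) (cont_SS hB) hB.meas_SS
  have j2 : Measurable fun q : ℝ × Ω => B q.1.toNNReal q.2 :=
    joint (X := B) (m := mΩ) hB.cont hB.meas
  have hD : MeasurableSet {q : ℝ × Ω | SS B q.1.toNNReal q.2 = B q.1.toNNReal q.2} :=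
    measurableSet_eq_fun j1 j2
  have hDs : MeasurableSet {q : Ω × ℝ | SS B q.2.toNNReal q.1 = B q.2.toNNReal q.1} :=
    measurable_swap hD
  set D : Set (Ω × ℝ) := {q : Ω × ℝ | SS B q.2.toNNReal q.1 = B q.2.toNNReal q.1} with hDdef
  have hF : Measurable (D.indicator (1 : Ω × ℝ → ℝ≥0∞)) := measurable_one.indicator hDs
  have h0 : ∫⁻ ω, (∫⁻ v in Ioo (0 : ℝ) (1 : ℝ≥0), D.indicator (1 : Ω × ℝ → ℝ≥0∞) (ω, v)) ∂P = 0 := by
    rw [lintegral_lintegral_swap (f := fun ω v => D.indicator (1 : Ω × ℝ → ℝ≥0∞) (ω, v))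
      hF.aemeasurable]
    have h1 : ∫⁻ v in Ioo (0 : ℝ) (1 : ℝ≥0), (∫⁻ ω, D.indicator (1 : Ω × ℝ → ℝ≥0∞) (ω, v) ∂P) =
        ∫⁻ _v in Ioo (0 : ℝ) (1 : ℝ≥0), 0 := by
      refine setLIntegral_congr_fun measurableSet_Ioo fun v hv => ?_
      have hm : MeasurableSet {ω | SS B v.toNNReal ω = B v.toNNReal ω} :=
        measurableSet_eq_fun (hB.meas_SS _) (hB.meas _)
      have h2 : ∫⁻ ω, D.indicator (1 : Ω × ℝ → ℝ≥0∞) (ω, v) ∂P =
          ∫⁻ ω, {ω | SS B v.toNNReal ω = B v.toNNReal ω}.indicator 1 ω ∂P := by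
        refine lintegral_congr fun ω => ?_
        simp only [indicator, hDdef, mem_ofPred_eq]
        rfl
      rw [h2, lintegral_indicator_one hm]
      exact null_eq hB (Real.toNNReal_pos.2 hv.1)
    rw [h1, lintegral_zero]
  have h3 := (lintegral_eq_zero_iff hF.lintegral_prod_right').1 h0
  filter_upwards [h3] with ω hω
  have hm : MeasurableSet {v : ℝ | SS B v.toNNReal ω = B v.toNNReal ω} := by
    have : Measurable fun v : ℝ => (ω, v) := measurable_const.prodMk measurable_id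
    exact this hDs
  have e : {v : ℝ | v ∈ Ioo (0 : ℝ) (1 : ℝ≥0) ∧ SS B v.toNNReal ω = B v.toNNReal ω} =
      {v : ℝ | SS B v.toNNReal ω = B v.toNNReal ω} ∩ Ioo (0 : ℝ) (1 : ℝ≥0) := by
    ext v
    simp only [mem_ofPred_eq, mem_inter_iff]
    exact and_comm
  rw [e, ← Measure.restrict_apply hm, ← lintegral_indicator_one hm]
  simp only [Pi.zero_apply] at hω
  rw [← hω]
  refine lintegral_congr fun v => ?_
  simp only [indicator, hDdef, mem_ofPred_eq]
  rfl

end paths

end Pool.Agent.J4H99.PT
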