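import Pool.Agent.J4H99.PT.Refl

/-!
# The joint law of a Brownian motion and its running maximum; Pitman's theorem at one time
-/

set_option autoImplicit false

open MeasureTheory ProbabilityTheory Filter Topology Set
open scoped ENNReal NNReal

namespace Pool.Agent.J4H99.PT

section comp

/-- `(u / τ) p_τ(u)` -/
noncomputable def qq (τ : ℝ≥0) (u : ℝ) : ℝ≥0∞ := ENNReal.ofReal (u / τ) * gaussianPDF 0 τ u

@[fun_prop]
lemma meas_pdf (τ : ℝ≥0) : Measurable (gaussianPDF 0 τ) := measurable_gaussianPDF 0 τ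

@[fun_prop]
lemma meas_qq (τ : ℝ≥0) : Measurable (qq τ) := by
  unfold qq
  fun_prop

lemma deriv_pdf {τ : ℝ≥0} (hτ : τ ≠ 0) (u : ℝ) :
    HasDerivAt (fun u => -gaussianPDFReal 0 τ u) (u / τ * gaussianPDFReal 0 τ u) u := by
  have hτ' : (τ : ℝ) ≠ 0 := by exact_mod_cast hτ
  have h1 : HasDerivAt (fun u : ℝ => -(u - 0) ^ 2 / (2 * τ)) (-(2 * (u - 0)) / (2 * τ)) u := by
    have h2 : HasDerivAt (fun u : ℝ => (u - 0)) 1 u := (hasDerivAt_id u).sub_const 0
    have h3 := ((h2.pow 2).neg).div_const (2 * (τ : ℝ))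
    exact h3.congr_deriv (by ring)
  have h4 := (h1.exp.const_mul (√(2 * Real.pi * τ))⁻¹).neg
  have e : (fun u => -gaussianPDFReal 0 τ u) =
      fun u => -((√(2 * Real.pi * τ))⁻¹ * Real.exp (-(u - 0) ^ 2 / (2 * τ))) := by
    funext u
    rw [gaussianPDFReal]
  rw [e]
  have e2 : gaussianPDFReal 0 τ u =
      (√(2 * Real.pi * τ))⁻¹ * Real.exp (-(u - 0) ^ 2 / (2 * τ)) := by
    rw [gaussianPDFReal]
  refine h4.congr_deriv ?_
  rw [e2]
  field_simp
  ring

lemma tendsto_pdf {τ : ℝ≥0} (hτ : τ ≠ 0) :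
    Tendsto (fun u => -gaussianPDFReal 0 τ u) atTop (𝓝 0) := by
  have hτ' : (0 : ℝ) < τ := by
    have := pos_of_ne_zero hτ
    exact_mod_cast this
  have e : (fun u => -gaussianPDFReal 0 τ u) =
      fun u => -((√(2 * Real.pi * τ))⁻¹ * Real.exp (-(u - 0) ^ 2 / (2 * τ))) := by
    funext u
    rw [gaussianPDFReal]
  rw [e]
  have h1 : Tendsto (fun u : ℝ => (u - 0) ^ 2 / (2 * τ)) atTop atTop := by
    simp only [sub_zero]
    exact (tendsto_pow_atTop (by norm_num)).atTop_div_const (by positivity)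
  have h2 : Tendsto (fun u : ℝ => Real.exp (-(u - 0) ^ 2 / (2 * τ))) atTop (𝓝 0) := by
    refine (Real.tendsto_exp_neg_atTop_nhds_zero.comp h1).congr fun u => ?_
    simp only [Function.comp]
    congr 1
    ring
  have h3 := (h2.const_mul (√(2 * Real.pi * τ))⁻¹).neg
  simpa using h3

lemma tail {τ : ℝ≥0} (hτ : τ ≠ 0) {y : ℝ} (hy : 0 ≤ y) :
    ∫⁻ u in Ioi y, qq τ u = gaussianPDF 0 τ y := by
  have hτ' : (0 : ℝ) < τ := by
    have := pos_of_ne_zero hτ
    exact_mod_cast this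
  have hd : ∀ x ∈ Ici y, HasDerivAt (fun u => -gaussianPDFReal 0 τ u)
      (x / τ * gaussianPDFReal 0 τ x) x := fun x _ => deriv_pdf hτ x
  have hp : ∀ x ∈ Ioi y, 0 ≤ x / τ * gaussianPDFReal 0 τ x := fun x hx =>
    mul_nonneg (div_nonneg (hy.trans (le_of_lt hx)) hτ'.le) (gaussianPDFReal_nonneg _ _ _)
  have h1 := integral_Ioi_of_hasDerivAt_of_nonneg' hd hp (tendsto_pdf hτ)
  have h2 := integrableOn_Ioi_deriv_of_nonneg' hd hp (tendsto_pdf hτ)
  have h3 := ofReal_integral_eq_lintegral_ofReal h2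
    ((ae_restrict_iff' measurableSet_Ioi).2 (Eventually.of_forall hp))
  rw [h1] at h3
  have e1 : (0 : ℝ) - -gaussianPDFReal 0 τ y = gaussianPDFReal 0 τ y := by ring
  rw [e1] at h3
  rw [gaussianPDF, h3]
  refine setLIntegral_congr_fun measurableSet_Ioi fun u hu => ?_
  simp only [qq, gaussianPDF]
  rw [← ENNReal.ofReal_mul (div_nonneg (hy.trans (le_of_lt hu)) hτ'.le)]

/-- the density of (running maximum, Brownian motion) -/
noncomputable def dens (τ : ℝ≥0) (z : ℝ × ℝ) : ℝ≥0∞ :=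
  if 0 < z.1 ∧ z.2 < z.1 then 2 * qq τ (2 * z.1 - z.2) else 0

@[fun_prop]
lemma meas_dens (τ : ℝ≥0) : Measurable (dens τ) := by
  unfold dens
  refine Measurable.ite ?_ (by fun_prop) measurable_const
  exact (measurableSet_lt measurable_const measurable_fst).inter
    (measurableSet_lt measurable_snd measurable_fst)

lemma dens_inner {τ : ℝ≥0} (hτ : τ ≠ 0) {σ : ℝ} (hσ : 0 < σ) (c : ℝ) :
    ∫⁻ b in Iic c, dens τ (σ, b) = 2 * gaussianPDF 0 τ (max σ (2 * σ - c)) := by
  rw [← lintegral_indicator measurableSet_Iic]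
  set F : ℝ → ℝ≥0∞ := {u | 2 * σ - c ≤ u ∧ σ < u}.indicator (fun u => 2 * qq τ u) with hF
  have e1 : ∀ b, (Iic c).indicator (fun b => dens τ (σ, b)) b = F (2 * σ - b) := by
    intro b
    simp only [hF, indicator, mem_Iic, mem_ofPred_eq, dens]
    by_cases h1 : b ≤ c
    · by_cases h2 : b < σ
      · rw [if_pos h1, if_pos ⟨hσ, h2⟩, if_pos ⟨by linarith, by linarith⟩]
      · rw [if_pos h1, if_neg (fun h => h2 h.2), if_neg (fun h => h2 (by linarith [h.2]))]
    · rw [if_neg h1, if_neg (fun h => h1 (by linarith [h.1]))]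
  simp_rw [e1]
  rw [lintegral_sub_left_eq_self F (2 * σ), hF, lintegral_indicator]
  swap
  · exact (measurableSet_le measurable_const measurable_id).inter
      (measurableSet_lt measurable_const measurable_id)
  have e2 : {u : ℝ | 2 * σ - c ≤ u ∧ σ < u} =ᵐ[volume] Ioi (max σ (2 * σ - c)) := by
    rcases le_or_gt (2 * σ - c) σ with h | h
    · rw [max_eq_left h]
      have : {u : ℝ | 2 * σ - c ≤ u ∧ σ < u} = Ioi σ := by
        ext u
        simp only [mem_ofPred_eq, mem_Ioi]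
        exact ⟨fun h => h.2, fun h' => ⟨by linarith, h'⟩⟩
      rw [this]
    · rw [max_eq_right h.le]
      have : {u : ℝ | 2 * σ - c ≤ u ∧ σ < u} = Ici (2 * σ - c) := by
        ext u
        simp only [mem_ofPred_eq, mem_Ici]
        exact ⟨fun h => h.1, fun h' => ⟨h', by linarith⟩⟩
      rw [this]
      exact Ioi_ae_eq_Ici.symm
  rw [setLIntegral_congr e2, lintegral_const_mul _ (meas_qq τ),
    tail hτ (le_max_of_le_left hσ.le)]

lemma gauss_Ioi {τ : ℝ≥0} (hτ : τ ≠ 0) (x : ℝ) :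
    gaussianReal 0 τ (Ioi x) = ∫⁻ u in Ioi x, gaussianPDF 0 τ u := gaussianReal_apply 0 hτ _

lemma gauss_Ioi_Ici {τ : ℝ≥0} (hτ : τ ≠ 0) (x : ℝ) :
    gaussianReal 0 τ (Ioi x) = gaussianReal 0 τ (Ici x) := by
  rw [gaussianReal_apply 0 hτ, gaussianReal_apply 0 hτ]
  exact setLIntegral_congr Ioi_ae_eq_Ici

lemma outer_one {τ : ℝ≥0} (hτ : τ ≠ 0) (a c : ℝ) :
    ∫⁻ σ in Ioi a, 2 * gaussianPDF 0 τ (2 * σ - c) = gaussianReal 0 τ (Ici (2 * a - c)) := by
  rw [← gauss_Ioi_Ici hτ, gauss_Ioi hτ, ← lintegral_indicator measurableSet_Ioi,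
    ← lintegral_indicator measurableSet_Ioi]
  set F : ℝ → ℝ≥0∞ := (Ioi (2 * a - c)).indicator (fun u => gaussianPDF 0 τ u) with hF
  have hFm : Measurable F := (meas_pdf τ).indicator measurableSet_Ioi
  have e1 : ∀ σ, (Ioi a).indicator (fun σ => 2 * gaussianPDF 0 τ (2 * σ - c)) σ =
      2 * F (2 * σ + -c) := by
    intro σ
    simp only [hF, indicator, mem_Ioi]
    have : 2 * a - c < 2 * σ + -c ↔ a < σ := by constructor <;> intro h <;> linarith
    simp only [this]
    by_cases h : a < σ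
    · rw [if_pos h, if_pos h]
      congr 2
    · rw [if_neg h, if_neg h, mul_zero]
  simp_rw [e1]
  have hFm2 : Measurable (fun x => F (x + -c)) := hFm.comp (measurable_id.add_const _)
  rw [lintegral_const_mul _ (by fun_prop)]
  have e2 : ∫⁻ σ, F (2 * σ + -c) = ∫⁻ x, F (x + -c) ∂(Measure.map (fun x : ℝ => 2 * x) volume) := by
    rw [lintegral_map hFm2 (by fun_prop)]
  rw [e2, Real.map_volume_mul_left (by norm_num), lintegral_smul_measure,
    lintegral_add_right_eq_self, smul_eq_mul, ← mul_assoc]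
  have : (2 : ℝ≥0∞) * ENNReal.ofReal |(2 : ℝ)⁻¹| = 1 := by
    rw [abs_of_pos (by norm_num)]
    rw [← ENNReal.ofReal_ofNat, ← ENNReal.ofReal_mul (by norm_num)]
    norm_num
  rw [this, one_mul]

/-- distribution function -/
noncomputable def KK (τ : ℝ≥0) (a c : ℝ) : ℝ≥0∞ :=
  if c ≤ a then gaussianReal 0 τ (Ici (2 * a - c))
  else gaussianReal 0 τ (Ici a) + gaussianReal 0 τ (Ioc a c)

lemma outer {τ : ℝ≥0} (hτ : τ ≠ 0) (a c : ℝ) :
    ∫⁻ σ in Ioi a, 2 * gaussianPDF 0 τ (max σ (2 * σ - c)) = KK τ a c := by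
  unfold KK
  split_ifs with h
  · rw [← outer_one hτ]
    refine setLIntegral_congr_fun measurableSet_Ioi fun σ hσ => ?_
    have hσ' : a < σ := hσ
    rw [max_eq_right (by linarith)]
  · have h : a < c := not_le.1 h
    have e1 : Ioi a = Ioc a c ∪ Ioi c := (Ioc_union_Ioi_eq_Ioi h.le).symm
    have e2 : ∫⁻ σ in Ioi c, 2 * gaussianPDF 0 τ (max σ (2 * σ - c)) =
        gaussianReal 0 τ (Ici c) := by
      have := outer_one hτ c c
      have e : 2 * c - c = c := by ring
      rw [e] at this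
      rw [← this]
      refine setLIntegral_congr_fun measurableSet_Ioi fun σ hσ => ?_
      have hσ' : c < σ := hσ
      rw [max_eq_right (by linarith)]
    have e3 : ∫⁻ σ in Ioc a c, 2 * gaussianPDF 0 τ (max σ (2 * σ - c)) =
        2 * gaussianReal 0 τ (Ioc a c) := by
      rw [gaussianReal_apply 0 hτ, ← lintegral_const_mul _ (meas_pdf τ)]
      refine setLIntegral_congr_fun measurableSet_Ioc fun σ hσ => ?_
      rw [max_eq_left (by linarith [hσ.2])]
    have hdisj : Disjoint (Ioc a c) (Ioi c) := by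
      rw [Set.disjoint_left]
      intro x h1 h2
      exact absurd h1.2 (not_le.2 h2)
    have e4 : gaussianReal 0 τ (Ici a) =
        gaussianReal 0 τ (Ioc a c) + gaussianReal 0 τ (Ici c) := by
      rw [← gauss_Ioi_Ici hτ a, ← gauss_Ioi_Ici hτ c]
      conv_lhs => rw [e1]
      rw [measure_union hdisj measurableSet_Ioi]
    conv_lhs => rw [e1]
    rw [lintegral_union measurableSet_Ioi hdisj, e2, e3, e4]
    ring

lemma law_dens_le {τ : ℝ≥0} (hτ : τ ≠ 0) {a : ℝ} (ha : 0 ≤ a) (c : ℝ) :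
    ∫⁻ σ in Ici a, ∫⁻ b in Iic c, dens τ (σ, b) = KK τ a c := by
  rw [← outer hτ, ← setLIntegral_congr (Ioi_ae_eq_Ici (a := a) (μ := volume))]
  refine setLIntegral_congr_fun measurableSet_Ioi fun σ hσ => ?_
  exact dens_inner hτ (lt_of_le_of_lt ha hσ) c

lemma dens_neg (τ : ℝ≥0) {σ : ℝ} (hσ : σ ≤ 0) (b : ℝ) : dens τ (σ, b) = 0 := by
  unfold dens
  rw [if_neg (fun h => absurd h.1 (not_lt.2 hσ))]

/-- the measure with density `dens` -/
noncomputable def mu2 (τ : ℝ≥0) : Measure (ℝ × ℝ) := volume.withDensity (dens τ)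

lemma mu2_rect {τ : ℝ≥0} (hτ : τ ≠ 0) (a c : ℝ) :
    mu2 τ (Ici a ×ˢ Iic c) = KK τ (max a 0) c := by
  unfold mu2
  rw [withDensity_apply _ (measurableSet_Ici.prod measurableSet_Iic), Measure.volume_eq_prod,
    ← Measure.prod_restrict, lintegral_prod _ (meas_dens τ).aemeasurable,
    ← law_dens_le hτ (le_max_right a 0)]
  rcases le_or_gt 0 a with h | h
  · rw [max_eq_left h]
  · rw [max_eq_right h.le]
    rw [← lintegral_indicator measurableSet_Ici, ← lintegral_indicator measurableSet_Ici]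
    refine lintegral_congr fun σ => ?_
    simp only [indicator, mem_Ici]
    by_cases h1 : 0 ≤ σ
    · rw [if_pos h1, if_pos (h.le.trans h1)]
    · rw [if_neg h1]
      split_ifs
      · simp only [dens_neg τ (not_le.1 h1).le, lintegral_zero]
      · rfl

end comp

section law

variable {Ω : Type*} [mΩ : MeasurableSpace Ω] {P : Measure Ω} {B : ℝ≥0 → Ω → ℝ}

/-- running maximum of the process -/
noncomputable def SS (B : ℝ≥0 → Ω → ℝ) (t : ℝ≥0) (ω : Ω) : ℝ := mx (fun u => B u ω) t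

/-- Pitman's transform -/
noncomputable def RR (B : ℝ≥0 → Ω → ℝ) (t : ℝ≥0) (ω : Ω) : ℝ := 2 * SS B t ω - B t ω

lemma BM.meas_SS (hB : BM B P) (t : ℝ≥0) : Measurable (SS B t) :=
  meas_mx t (fun u _ => hB.meas u) hB.cont

lemma BM.meas_RR (hB : BM B P) (t : ℝ≥0) : Measurable (RR B t) :=
  ((hB.meas_SS t).const_mul 2).sub (hB.meas t)

lemma BM.SS_nonneg (hB : BM B P) (t : ℝ≥0) (ω : Ω) : 0 ≤ SS B t ω := by
  have h := le_mx (hB.cont ω) (zero_le : (0 : ℝ≥0) ≤ t)
  simp only [hB.zero] at h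
  exact h

lemma BM.le_SS (hB : BM B P) (t : ℝ≥0) (ω : Ω) : B t ω ≤ SS B t ω := le_mx (hB.cont ω) le_rfl

lemma cdf_pos (hB : BM B P) {τ : ℝ≥0} (hτ : 0 < τ) {a : ℝ} (ha : 0 < a) (c : ℝ) :
    P {ω | a ≤ SS B τ ω ∧ B τ ω ≤ c} = KK τ a c := by
  unfold KK
  split_ifs with h
  · exact refl hB hτ ha h
  · have h : a < c := not_le.1 h
    have e1 : {ω | a ≤ SS B τ ω ∧ B τ ω ≤ c} =
        {ω | a ≤ SS B τ ω ∧ B τ ω ≤ a} ∪ {ω | a < B τ ω ∧ B τ ω ≤ c} := by
      ext ω
      simp only [mem_ofPred_eq, mem_union]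
      constructor
      · rintro ⟨h1, h2⟩
        rcases le_or_gt (B τ ω) a with h3 | h3
        · exact Or.inl ⟨h1, h3⟩
        · exact Or.inr ⟨h3, h2⟩
      · rintro (⟨h1, h2⟩ | ⟨h1, h2⟩)
        · exact ⟨h1, h2.trans h.le⟩
        · exact ⟨h1.le.trans (hB.le_SS τ ω), h2⟩
    have hm : MeasurableSet {ω | a < B τ ω ∧ B τ ω ≤ c} :=
      (measurableSet_lt measurable_const (hB.meas τ)).inter
        (measurableSet_le (hB.meas τ) measurable_const)
    have hdisj : Disjoint {ω | a ≤ SS B τ ω ∧ B τ ω ≤ a} {ω | a < B τ ω ∧ B τ ω ≤ c} := by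
      rw [Set.disjoint_left]
      intro ω h1 h2
      exact absurd h1.2 (not_le.2 h2.1)
    rw [e1, measure_union hdisj hm]
    congr 1
    · have := refl hB hτ ha (le_refl a)
      rw [show 2 * a - a = a by ring] at this
      exact this
    · rw [← hB.law τ, Measure.map_apply (hB.meas τ) measurableSet_Ioc]
      rfl

lemma cdf_zero (hB : BM B P) {τ : ℝ≥0} (hτ : 0 < τ) (c : ℝ) :
    P {ω | B τ ω ≤ c} = KK τ 0 c := by
  have h0 : P {ω | B τ ω ≤ c} = gaussianReal 0 τ (Iic c) := by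
    rw [← hB.law τ, Measure.map_apply (hB.meas τ) measurableSet_Iic]
    rfl
  rw [h0]
  unfold KK
  split_ifs with h
  · rw [gauss_symm]
    congr 2
    ring
  · have h : 0 < c := not_le.1 h
    have e1 : Iic c = Iic 0 ∪ Ioc 0 c := (Iic_union_Ioc_eq_Iic h.le).symm
    have hdisj : Disjoint (Iic (0 : ℝ)) (Ioc 0 c) := by
      rw [Set.disjoint_left]
      intro x h1 h2
      exact absurd h1 (not_le.2 h2.1)
    rw [e1, measure_union hdisj measurableSet_Ioc, gauss_symm, neg_zero]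

lemma cdf (hB : BM B P) {τ : ℝ≥0} (hτ : 0 < τ) (a c : ℝ) :
    P {ω | a ≤ SS B τ ω ∧ B τ ω ≤ c} = KK τ (max a 0) c := by
  rcases lt_or_ge 0 a with h | h
  · rw [max_eq_left h.le]
    exact cdf_pos hB hτ h c
  · rw [max_eq_right h, ← cdf_zero hB hτ c]
    congr 1
    ext ω
    simp only [mem_ofPred_eq]
    exact ⟨fun h' => h'.2, fun h' => ⟨h.trans (hB.SS_nonneg τ ω), h'⟩⟩

/-- The joint law of the running maximum and the Brownian motion. -/
theorem law_SB (hB : BM B P) {τ : ℝ≥0} (hτ : 0 < τ) :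
    P.map (fun ω => (SS B τ ω, B τ ω)) = mu2 τ := by
  have := hB.prob
  have hm : Measurable (fun ω => (SS B τ ω, B τ ω)) := (hB.meas_SS τ).prodMk (hB.meas τ)
  have hprob : IsProbabilityMeasure (P.map (fun ω => (SS B τ ω, B τ ω))) :=
    Measure.isProbabilityMeasure_map hm.aemeasurable
  have hrect : ∀ a c : ℝ, P.map (fun ω => (SS B τ ω, B τ ω)) (Ici a ×ˢ Iic c) =
      mu2 τ (Ici a ×ˢ Iic c) := by
    intro a c
    rw [mu2_rect hτ.ne', ← cdf hB hτ,
      Measure.map_apply hm (measurableSet_Ici.prod measurableSet_Iic)]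
    rfl
  refine ext_of_generate_finite
    (image2 (· ×ˢ ·) (range (Ici : ℝ → Set ℝ)) (range (Iic : ℝ → Set ℝ))) ?_ ?_ ?_ ?_
  · refine (generateFrom_eq_prod ?_ ?_ ?_ ?_).symm
    · rw [← borel_eq_generateFrom_Ici]
      exact (BorelSpace.measurable_eq (α := ℝ)).symm
    · rw [← borel_eq_generateFrom_Iic]
      exact (BorelSpace.measurable_eq (α := ℝ)).symm
    · refine ⟨fun n : ℕ => Ici (-(n : ℝ)), fun n => ⟨_, rfl⟩, ?_⟩
      rw [eq_univ_iff_forall]
      intro x
      obtain ⟨n, hn⟩ := exists_nat_ge (-x)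
      exact mem_iUnion.2 ⟨n, by simp only [mem_Ici]; linarith⟩
    · refine ⟨fun n : ℕ => Iic (n : ℝ), fun n => ⟨_, rfl⟩, ?_⟩
      rw [eq_univ_iff_forall]
      intro x
      obtain ⟨n, hn⟩ := exists_nat_ge x
      exact mem_iUnion.2 ⟨n, hn⟩
  · exact isPiSystem_Ici.prod isPiSystem_Iic
  · rintro _ ⟨_, ⟨a, rfl⟩, _, ⟨c, rfl⟩, rfl⟩
    exact hrect a c
  · have hu : (univ : Set (ℝ × ℝ)) = ⋃ n : ℕ, Ici (-(n : ℝ)) ×ˢ Iic (n : ℝ) := by
      symm
      rw [eq_univ_iff_forall]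
      rintro ⟨x, y⟩
      obtain ⟨n, hn⟩ := exists_nat_ge (max (-x) y)
      refine mem_iUnion.2 ⟨n, ?_, ?_⟩
      · have := (le_max_left _ _).trans hn
        simp only [mem_Ici]
        linarith
      · exact (le_max_right _ _).trans hn
    have hmono : Monotone (fun n : ℕ => Ici (-(n : ℝ)) ×ˢ Iic (n : ℝ)) := by
      intro a b hab
      have : (a : ℝ) ≤ b := by exact_mod_cast hab
      exact prod_mono (Ici_subset_Ici.2 (by linarith)) (Iic_subset_Iic.2 this)
    rw [hu, hmono.measure_iUnion, hmono.measure_iUnion]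
    exact iSup_congr fun n => hrect _ _

/-- averaging over a uniform point -/
noncomputable def Lam (g : ℝ × ℝ → ℝ≥0∞) (r : ℝ) : ℝ≥0∞ := ∫⁻ u in Ioo (0 : ℝ) 1, g (u * r, r)

lemma meas_Lam {g : ℝ × ℝ → ℝ≥0∞} (hg : Measurable g) : Measurable (Lam g) := by
  unfold Lam
  have : Measurable (fun q : ℝ × ℝ => g (q.2 * q.1, q.1)) := by fun_prop
  exact this.lintegral_prod_right'

lemma Lam_snd (h : ℝ → ℝ≥0∞) (r : ℝ) : Lam (fun q => h q.2) r = h r := by
  unfold Lam
  simp

lemma Lam_scale {g : ℝ × ℝ → ℝ≥0∞} (hg : Measurable g) {r : ℝ} (hr : 0 < r) :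
    ∫⁻ s in Ioo 0 r, g (s, r) = ENNReal.ofReal r * Lam g r := by
  unfold Lam
  set F : ℝ → ℝ≥0∞ := (Ioo 0 r).indicator (fun s => g (s, r)) with hF
  have hgm : Measurable (fun s => g (s, r)) := by fun_prop
  have hFm : Measurable F := hgm.indicator measurableSet_Ioo
  have e1 : ∫⁻ u in Ioo (0 : ℝ) 1, g (u * r, r) = ∫⁻ u, F (r * u) := by
    rw [← lintegral_indicator measurableSet_Ioo]
    refine lintegral_congr fun u => ?_
    simp only [hF, indicator, mem_Ioo]
    have e : (0 < u ∧ u < 1) ↔ (0 < r * u ∧ r * u < r) := by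
      constructor
      · rintro ⟨h1, h2⟩
        exact ⟨mul_pos hr h1, by nlinarith⟩
      · rintro ⟨h1, h2⟩
        exact ⟨(mul_pos_iff_of_pos_left hr).1 h1, by nlinarith⟩
    simp only [e, mul_comm u r]
  have e2 : ∫⁻ u, F (r * u) = ∫⁻ x, F x ∂(Measure.map (fun x : ℝ => r * x) volume) := by
    rw [lintegral_map hFm (by fun_prop)]
  rw [e1, e2, Real.map_volume_mul_left hr.ne', lintegral_smul_measure, smul_eq_mul, ← mul_assoc,
    ← ENNReal.ofReal_mul hr.le, abs_of_pos (inv_pos.2 hr), mul_inv_cancel₀ hr.ne',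
    ENNReal.ofReal_one, one_mul, hF, lintegral_indicator measurableSet_Ioo]

/-- the density of the value at time `τ` of the three dimensional Bessel process -/
noncomputable def kap (τ : ℝ≥0) (r : ℝ) : ℝ≥0∞ := 2 * qq τ r * ENNReal.ofReal r

@[fun_prop]
lemma meas_kap (τ : ℝ≥0) : Measurable (kap τ) := by
  unfold kap
  fun_prop

/-- Pitman's theorem at one time: law of `(S, 2S - B)`. -/
theorem law_SR (hB : BM B P) {τ : ℝ≥0} (hτ : 0 < τ) {g : ℝ × ℝ → ℝ≥0∞} (hg : Measurable g) :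
    ∫⁻ ω, g (SS B τ ω, RR B τ ω) ∂P = ∫⁻ r in Ioi 0, kap τ r * Lam g r := by
  have hm : Measurable (fun ω => (SS B τ ω, B τ ω)) := (hB.meas_SS τ).prodMk (hB.meas τ)
  set G : ℝ × ℝ → ℝ≥0∞ := fun z => g (z.1, 2 * z.1 - z.2) with hG
  have hGm : Measurable G := by
    simp only [hG]
    fun_prop
  have e1 : ∫⁻ ω, g (SS B τ ω, RR B τ ω) ∂P = ∫⁻ z, G z ∂(mu2 τ) := by
    rw [← law_SB hB hτ, lintegral_map hGm hm]
    rfl
  rw [e1]
  unfold mu2
  rw [lintegral_withDensity_eq_lintegral_mul _ (meas_dens τ) hGm, Measure.volume_eq_prod,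
    lintegral_prod _ ((meas_dens τ).mul hGm).aemeasurable]
  set H : ℝ → ℝ → ℝ≥0∞ := fun s r => (if 0 < s ∧ s < r then 2 * qq τ r else 0) * g (s, r) with hH
  have hHm : Measurable (Function.uncurry H) := by
    simp only [hH, Function.uncurry_def]
    refine Measurable.mul ?_ (by fun_prop)
    refine Measurable.ite ?_ (by fun_prop) measurable_const
    exact (measurableSet_lt measurable_const measurable_fst).inter
      (measurableSet_lt measurable_fst measurable_snd)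
  have e2 : ∀ s, ∫⁻ b, (dens τ * G) (s, b) = ∫⁻ r, H s r := by
    intro s
    rw [← lintegral_sub_left_eq_self (fun r => H s r) (2 * s)]
    refine lintegral_congr fun b => ?_
    simp only [Pi.mul_apply, hG, hH, dens]
    have : (0 < s ∧ b < s) ↔ (0 < s ∧ s < 2 * s - b) := by
      constructor <;> rintro ⟨h1, h2⟩ <;> exact ⟨h1, by linarith⟩
    simp only [this]
  simp_rw [e2]
  rw [lintegral_lintegral_swap hHm.aemeasurable, ← lintegral_indicator measurableSet_Ioi]
  refine lintegral_congr fun r => ?_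
  simp only [indicator, mem_Ioi]
  split_ifs with hr
  · have e3 : ∫⁻ s, H s r = ∫⁻ s in Ioo 0 r, (2 * qq τ r) * g (s, r) := by
      rw [← lintegral_indicator measurableSet_Ioo]
      refine lintegral_congr fun s => ?_
      simp only [hH, indicator, mem_Ioo]
      split_ifs
      · rfl
      · simp
    have hgm : Measurable (fun s => g (s, r)) := by fun_prop
    rw [e3, lintegral_const_mul _ hgm, Lam_scale hg hr]
    unfold kap
    ring
  · have : ∀ s, H s r = 0 := by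
      intro s
      simp only [hH]
      rw [if_neg, zero_mul]
      rintro ⟨h1, h2⟩
      exact hr (h1.trans h2)
    simp [this]

end law

end Pool.Agent.J4H99.PT
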