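import Pool.Agent.J4H99.PT.Fin

/-!
# The counterexample, assembled (MP_e3daee_pr)
-/

set_option autoImplicit false

open MeasureTheory ProbabilityTheory Filter Topology Set
open scoped ENNReal NNReal

namespace Pool.Agent.J4H99.PT

open Pool.Agent.Helper41 in
theorem exists_pre : ∃ (Ω : Type) (_ : MeasurableSpace Ω) (P : Measure Ω)
    (B : ℝ≥0 → Ω → ℝ), BM B P := by
  obtain ⟨Ω, mΩ, P, hP, X, hX, hc⟩ := exists_sheet 1
  have hcont : ∀ ω, Continuous fun t : ℝ≥0 => X (0, t, 1) ω := by
    intro ω
    have h2 : Continuous (fun t : ℝ≥0 => ((t, 1) : ℝ≥0 × ℝ≥0)) := by fun_prop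
    exact (hc ω 0).comp h2
  have h1 : IsGaussianProcess (fun (t : ℝ≥0) ω => X (0, t, 1) ω) P :=
    hX.gauss.comp_right (fun t : ℝ≥0 => ((0, t, 1) : Fin 1 × ℝ≥0 × ℝ≥0))
  have h2 : IsPreBrownianReal (fun (t : ℝ≥0) ω => X (0, t, 1) ω) P := by
    refine h1.isPreBrownianReal_of_covariance ?_ ?_
    · intro t
      exact hX.char.mean hX.meas _
    · intro s t hst
      have := hX.cov (0, s, 1) (0, t, 1)
      rw [this]
      simp [sheetK, min_eq_left hst]
  refine ⟨Ω, mΩ, P, fun t ω => X (0, t, 1) ω - X (0, 0, 1) ω, ?_, ?_, ?_, ?_⟩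
  · refine h2.congr fun t => ?_
    filter_upwards [h2.eval_zero_ae_eq_zero] with ω hω
    rw [hω, sub_zero]
  · intro t
    exact (hX.meas _).sub (hX.meas _)
  · intro ω
    exact (hcont ω).sub continuous_const
  · intro ω
    simp

theorem completion_map {Ω E : Type*} {mΩ : MeasurableSpace Ω} {mE : MeasurableSpace E}
    (P : Measure Ω) (f : Ω → E) (hf : Measurable f) :
    @Measure.map (NullMeasurableSpace Ω P) E _ mE f P.completion = P.map f := by
  have hf' : @Measurable (NullMeasurableSpace Ω P) E _ mE f := fun s hs =>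
    (hf hs).nullMeasurableSet
  refine Measure.ext fun s hs => ?_
  rw [Measure.map_apply hf' hs, Measure.map_apply hf hs]
  exact Measure.completion_apply _ _

/-- A Brownian motion on a complete probability space. -/
theorem exists_bm : ∃ (Ω : Type) (_ : MeasurableSpace Ω) (P : Measure Ω)
    (B : ℝ≥0 → Ω → ℝ), P.IsComplete ∧ BM B P := by
  obtain ⟨Ω, mΩ, P, B, hB⟩ := exists_pre
  have hm : ∀ t, @Measurable (NullMeasurableSpace Ω P) ℝ _ _ (B t) := fun t s hs =>
    (hB.meas t hs).nullMeasurableSet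
  refine ⟨NullMeasurableSpace Ω P, inferInstance, P.completion, B,
    Measure.completion.isComplete P, ⟨fun I => ?_⟩, hm, hB.cont, hB.zero⟩
  have h := hB.pre.hasLaw I
  have hmm : Measurable (fun ω => I.restrict (fun t => B t ω)) :=
    measurable_pi_lambda _ fun t => hB.meas t
  refine ⟨(measurable_pi_lambda _ fun t : I => hm t).aemeasurable, ?_⟩
  rw [← h.map_eq]
  exact completion_map P _ hmm

theorem main :
    ∃ (Ω : Type) (mΩ : MeasurableSpace Ω) (P : Measure Ω) (F G : Filtration ℝ≥0 mΩ)
      (M N A V : ℝ≥0 → Ω → ℝ),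
      IsProbabilityMeasure P ∧ P.IsComplete ∧
      (∀ E, P E = 0 → MeasurableSet[F 0] E) ∧ (∀ E, P E = 0 → MeasurableSet[G 0] E) ∧
      (∀ t, F t ≤ G t) ∧
      (∀ ω, Continuous fun t => M t ω) ∧ Martingale M F P ∧
      (∀ t ω, M t ω = N t ω + A t ω) ∧
      (∀ ω, Continuous fun t => N t ω) ∧ Martingale N G P ∧
      StronglyAdapted G A ∧ (∀ ω, A 0 ω = 0) ∧ (∀ ω, Continuous fun t => A t ω) ∧
      (∀ ω, ∃ C D : ℝ≥0 → ℝ, Monotone C ∧ Monotone D ∧ ∀ t, A t ω = C t - D t) ∧
      StronglyAdapted G V ∧ (∀ ω, V 0 ω = 0) ∧ (∀ ω, Continuous fun t => V t ω) ∧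
      (∀ ω, Monotone fun t => V t ω) ∧ Martingale (fun t ω => N t ω ^ 2 - V t ω) G P ∧
      ∀ᵐ ω ∂P, ¬ AbsCont (fun t => A t ω) (fun t => V t ω) := by
  classical
  obtain ⟨Ω, mΩ, P, B, hcomp, hB⟩ := exists_bm
  have hprob := hB.prob
  set A : ℝ≥0 → Ω → ℝ := fun t ω =>
    if ω ∈ Gam B then 2 * SS B t ω - (YY B t ω).toReal else 0 with hA
  have hGam : ∀ᵐ ω ∂P, ω ∈ Gam B := ae_YY hB
  have hAae : ∀ t, A t =ᵐ[P] fun ω => 2 * SS B t ω - (YY B t ω).toReal := by
    intro t
    filter_upwards [hGam] with ω hω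
    simp only [hA]
    rw [if_pos hω]
  have hAint : ∀ t, Integrable (A t) P := fun t =>
    (((int_SS hB t).const_mul 2).sub (int_YY hB t)).congr (hAae t).symm
  have hBint : ∀ t, Integrable (B t) P := fun t => hB.pre.integrable_eval t
  have hAcont : ∀ ω, Continuous fun t => A t ω := by
    intro ω
    by_cases hω : ω ∈ Gam B
    · simp only [hA, if_pos hω]
      exact ((cont_SS hB ω).const_mul 2).sub (cont_YY hB hω)
    · simp only [hA, if_neg hω]
      exact continuous_const
  refine ⟨Ω, mΩ, P, cmpl P (RR B) hB.meas_RR, cmpl P B hB.meas, fun t ω => -B t ω + A t ω,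
    fun t ω => -B t ω, A, fun t _ => (t : ℝ), hprob, hcomp, fun E hE => cmpl_null _ _ hE,
    fun E hE => cmpl_null _ _ hE, ?_, fun ω => (hB.cont ω).neg.add (hAcont ω), ?_,
    fun t ω => rfl, fun ω => (hB.cont ω).neg, ?_, ?_, ?_, hAcont, ?_, ?_, fun ω => NNReal.coe_zero,
    fun ω => NNReal.continuous_coe, fun ω => NNReal.coe_mono, ?_, ?_⟩
  · -- inclusion of the filtrations
    rintro t E ⟨E', hE', h⟩
    exact ⟨E', raw_RR_le hB t _ hE', h⟩
  · -- M is a martingale
    have hMae : ∀ t, (fun ω => -B t ω + A t ω) =ᵐ[P] fun ω => RR B t ω - (YY B t ω).toReal := by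
      intro t
      filter_upwards [hAae t] with ω hω
      rw [hω]
      unfold RR
      ring
    refine mart_of hB.meas_RR ?_ (fun t => (hBint t).neg.add (hAint t)) ?_
    · intro t
      refine cmpl_meas hB.meas_RR ?_ (hMae t)
      refine Measurable.sub (meas_raw (X := RR B) le_rfl) ?_
      exact ENNReal.measurable_toReal.comp
        (YY_meas (cont_RR hB) (fun u hu => meas_raw (X := RR B) hu))
    · intro s t hst E hE
      have hE1 : MeasurableSet[raw B s] E := raw_RR_le hB s _ hE
      have key : ∀ u, ∫ ω in E, (-B u ω + A u ω) ∂P =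
          -(∫ ω in E, B u ω ∂P) + ∫ ω in E, (2 * SS B u ω - (YY B u ω).toReal) ∂P := by
        intro u
        have hneg : Integrable (fun ω => -B u ω) P := (hBint u).neg
        rw [integral_add hneg.integrableOn (hAint u).integrableOn, integral_neg]
        congr 1
        exact integral_congr_ae (ae_restrict_of_ae (hAae u))
      rw [key, key, set_B hB hst hE1, set_SY hB hst hE]
  · -- N is a martingale
    refine mart_of hB.meas ?_ (fun t => (hBint t).neg) ?_
    · intro t
      exact cmpl_meas hB.meas (Measurable.neg (meas_raw (X := B) le_rfl)) (EventuallyEq.refl _ _)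
    · intro s t hst E hE
      rw [integral_neg, integral_neg, set_B hB hst hE]
  · -- A is adapted
    intro t
    refine cmpl_meas hB.meas ?_ (hAae t)
    refine Measurable.sub (Measurable.const_mul (adapt_SS hB t) 2) ?_
    exact ENNReal.measurable_toReal.comp (YY_meas (cont_RR hB)
      (fun u hu => (adapt_RR hB u).mono (raw_mono B hu) le_rfl))
  · -- A 0 = 0
    intro ω
    simp only [hA]
    rw [SS_zero hB, YY_zero]
    simp
  · -- finite variation
    intro ω
    by_cases hω : ω ∈ Gam B
    · refine ⟨fun t => 2 * SS B t ω, fun t => (YY B t ω).toReal, ?_, ?_, ?_⟩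
      · intro s t hst
        have : SS B s ω ≤ SS B t ω := mx_mono (hB.cont ω) hst
        simp only
        linarith
      · intro s t hst
        exact ENNReal.toReal_mono (Gam_fin hB hω t).ne (YY_mono hB hst ω)
      · intro t
        simp only [hA]
        rw [if_pos hω]
    · refine ⟨fun _ => 0, fun _ => 0, monotone_const, monotone_const, fun t => ?_⟩
      simp only [hA]
      rw [if_neg hω, sub_zero]
  · -- V is adapted
    intro t
    exact stronglyMeasurable_const
  · -- N^2 - V is a martingale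
    refine mart_of hB.meas ?_ (fun t => ?_) ?_
    · intro t
      refine cmpl_meas hB.meas ?_ (EventuallyEq.refl _ _)
      have h1 : Measurable[raw B t] (B t) := meas_raw (X := B) le_rfl
      exact ((Measurable.neg h1).pow_const 2).sub_const _
    · have h1 : Integrable (fun ω => B t ω ^ 2) P := (memLp_B hB t).integrable_sq
      have h2 : Integrable (fun ω => B t ω ^ 2 - (t : ℝ)) P := h1.sub (integrable_const _)
      refine h2.congr (Eventually.of_forall fun ω => ?_)
      simp only
      ring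
    · intro s t hst E hE
      have h1 := set_B2 hB hst hE
      have h2 : ∀ u : ℝ≥0, ∫ ω in E, ((-B u ω) ^ 2 - (u : ℝ)) ∂P =
          ∫ ω in E, (B u ω ^ 2 - u) ∂P := by
        intro u
        refine integral_congr_ae (Eventually.of_forall fun ω => ?_)
        simp only
        ring
      rw [h2, h2, h1]
  · -- no absolute continuity
    have h1 : ∀ᵐ ω ∂P, 0 < SS B 1 ω := by
      have := null_neg hB (t := 1) one_pos
      rw [← compl_mem_ae_iff] at this
      filter_upwards [this] with ω hω
      exact not_le.1 hω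
    filter_upwards [h1, ae_contact hB, hGam] with ω hω1 hω2 hω3
    refine nonAC (w := fun t => B t ω) (hB.cont ω) (hB.zero ω)
      (y := fun v => ENNReal.ofReal (1 / RR B v.toNNReal ω)) (T := 1) one_pos ?_ hω2 hω1 ?_
    · exact Gam_fin hB hω3 1
    · intro t _
      simp only [hA]
      rw [if_pos hω3]
      rfl

end Pool.Agent.J4H99.PT
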