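import Pool.Agent.J4H99.PT.Calc

/-!
# `2 S - B - ∫ 1 / R` has centred increments given the past of `R`
-/

set_option autoImplicit false

open MeasureTheory ProbabilityTheory Filter Topology Set
open scoped ENNReal NNReal

namespace Pool.Agent.J4H99.PT

section mart

variable {Ω : Type*} [mΩ : MeasurableSpace Ω] {P : Measure Ω} {B : ℝ≥0 → Ω → ℝ}

lemma cont_SS (hB : BM B P) (ω : Ω) : Continuous fun t => SS B t ω := cont_mx (hB.cont ω)

lemma cont_RR (hB : BM B P) (ω : Ω) : Continuous fun t => RR B t ω :=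
  ((cont_SS hB ω).const_mul 2).sub (hB.cont ω)

/-- joint measurability -/
lemma joint {m : MeasurableSpace Ω} {X : ℝ≥0 → Ω → ℝ} (hc : ∀ ω, Continuous fun t => X t ω)
    (hm : ∀ t, Measurable[m] (X t)) : Measurable fun q : ℝ × Ω => X q.1.toNNReal q.2 := by
  have h := measurable_uncurry_of_continuous_of_measurable
    (u := fun (v : ℝ) (ω : Ω) => X v.toNNReal ω)
    (fun ω => (hc ω).comp continuous_real_toNNReal) (fun v => hm _)
  exact h

/-- `∫_0^t dv / R_v` -/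
noncomputable def YY (B : ℝ≥0 → Ω → ℝ) (t : ℝ≥0) (ω : Ω) : ℝ≥0∞ :=
  ∫⁻ v in Ioo (0 : ℝ) t, ENNReal.ofReal (1 / RR B v.toNNReal ω)

lemma YY_meas {m : MeasurableSpace Ω} (hc : ∀ ω, Continuous fun t => RR B t ω) {t : ℝ≥0}
    (hm : ∀ u ≤ t, Measurable[m] (RR B u)) : Measurable (YY B t) := by
  have h1 := joint (X := fun u ω => RR B (min u t) ω) (m := m)
    (fun ω => (hc ω).comp (continuous_id.min continuous_const)) (fun u => hm _ (min_le_right _ _))
  have h2 : Measurable fun q : ℝ × Ω => ENNReal.ofReal (1 / RR B (min q.1.toNNReal t) q.2) := by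
    fun_prop
  have h3 : YY B t = fun ω =>
      ∫⁻ v in Ioo (0 : ℝ) t, ENNReal.ofReal (1 / RR B (min v.toNNReal t) ω) := by
    funext ω
    unfold YY
    refine setLIntegral_congr_fun measurableSet_Ioo fun v hv => ?_
    rw [min_eq_left (Real.toNNReal_le_iff_le_coe.2 hv.2.le)]
  rw [h3]
  exact h2.lintegral_prod_left'

lemma YY_add (hB : BM B P) (s τ : ℝ≥0) (ω : Ω) :
    YY B (s + τ) ω = YY B s ω +
      ∫⁻ v in Ioo (0 : ℝ) τ, ENNReal.ofReal (1 / RR B (s + v.toNNReal) ω) := by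
  have hm : Measurable fun v : ℝ => ENNReal.ofReal (1 / RR B v.toNNReal ω) := by
    have := (cont_RR hB ω).comp continuous_real_toNNReal
    have h2 : Measurable fun v : ℝ => RR B v.toNNReal ω := this.measurable
    fun_prop
  have e1 : ∫⁻ v in Ioo (0 : ℝ) τ, ENNReal.ofReal (1 / RR B (s + v.toNNReal) ω) =
      ∫⁻ v in Ioo (s : ℝ) (s + τ), ENNReal.ofReal (1 / RR B v.toNNReal ω) := by
    rw [← lintegral_indicator measurableSet_Ioo, ← lintegral_indicator measurableSet_Ioo,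
      ← lintegral_add_right_eq_self ((Ioo (s : ℝ) (s + τ)).indicator
        fun v => ENNReal.ofReal (1 / RR B v.toNNReal ω)) (s : ℝ)]
    refine lintegral_congr fun v => ?_
    have e : ((s : ℝ) < v + s ∧ v + s < s + τ) ↔ (0 < v ∧ v < τ) := by
      constructor <;> rintro ⟨h1, h2⟩ <;> constructor <;> linarith
    simp only [indicator, mem_Ioo, e]
    split_ifs with h
    · have : (v + (s : ℝ)).toNNReal = s + v.toNNReal := by
        rw [Real.toNNReal_add h.1.le (NNReal.coe_nonneg s), Real.toNNReal_coe, add_comm]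
      rw [this]
    · rfl
  rw [e1]
  unfold YY
  rcases eq_or_ne s 0 with h | h
  · subst h
    simp
  · have hs : (0 : ℝ) < s := by
      have := pos_of_ne_zero h
      exact_mod_cast this
    have e2 : Ioo (0 : ℝ) ((s + τ : ℝ≥0) : ℝ) =ᵐ[volume]
        (Ioo (0 : ℝ) s ∪ Ioo (s : ℝ) (s + τ) : Set ℝ) := by
      have h1 : Ioo (0 : ℝ) s ∪ Ioo (s : ℝ) (s + τ) ⊆ Ioo (0 : ℝ) ((s + τ : ℝ≥0) : ℝ) := by
        push_cast
        rintro x (hx | hx)
        · exact ⟨hx.1, by linarith [hx.2, τ.2]⟩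
        · exact ⟨hs.trans hx.1, hx.2⟩
      have h2 : Ioo (0 : ℝ) ((s + τ : ℝ≥0) : ℝ) \ (Ioo (0 : ℝ) s ∪ Ioo (s : ℝ) (s + τ)) ⊆
          {(s : ℝ)} := by
        push_cast
        rintro x ⟨hx1, hx2⟩
        rw [mem_union, not_or] at hx2
        by_contra h3
        rcases lt_or_gt_of_ne h3 with h4 | h4
        · exact hx2.1 ⟨hx1.1, h4⟩
        · exact hx2.2 ⟨h4, hx1.2⟩
      have h3 : volume (Ioo (0 : ℝ) ((s + τ : ℝ≥0) : ℝ) \
          (Ioo (0 : ℝ) s ∪ Ioo (s : ℝ) (s + τ))) = 0 :=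
        measure_mono_null h2 (measure_singleton _)
      exact (ae_le_set.2 h3).antisymm h1.eventuallyLE
    rw [setLIntegral_congr e2, lintegral_union measurableSet_Ioo]
    rw [Set.disjoint_left]
    intro x h1 h2
    exact lt_asymm h1.2 h2.1

lemma YY_zero (B : ℝ≥0 → Ω → ℝ) (ω : Ω) : YY B 0 ω = 0 := by
  unfold YY
  simp

lemma SS_zero (hB : BM B P) (ω : Ω) : SS B 0 ω = 0 := by
  unfold SS
  rw [mx_zero, hB.zero]

lemma RR_zero (hB : BM B P) (ω : Ω) : RR B 0 ω = 0 := by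
  unfold RR
  rw [SS_zero hB, hB.zero]
  ring

/-- the identity for good events -/
lemma Good.ident (hB : BM B P) {s τ : ℝ≥0} (hτ : 0 < τ) {A : Set Ω} (hA : Good B P s A) :
    ∫⁻ ω in A, ENNReal.ofReal (2 * (SS B (s + τ) ω - SS B s ω)) ∂P =
      ∫⁻ ω in A, (∫⁻ v in Ioo (0 : ℝ) τ, ENNReal.ofReal (1 / RR B (s + v.toNNReal) ω)) ∂P := by
  have := hB.prob
  have hj : Measurable fun q : ℝ × Ω => RR B (s + q.1.toNNReal) q.2 :=
    joint (X := fun u ω => RR B (s + u) ω) (m := mΩ)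
      (fun ω => (cont_RR hB ω).comp (continuous_const.add continuous_id))
      (fun u => hB.meas_RR _)
  have hj1 : Measurable fun q : Ω × ℝ => RR B (s + q.2.toNNReal) q.1 :=
    Measurable.comp (g := fun q : ℝ × Ω => RR B (s + q.1.toNNReal) q.2)
      (f := fun q : Ω × ℝ => (q.2, q.1)) hj (measurable_snd.prodMk measurable_fst)
  have hj2 : Measurable fun q : Ω × ℝ => ENNReal.ofReal (1 / RR B (s + q.2.toNNReal) q.1) := by
    have h0 : Measurable fun x : ℝ => ENNReal.ofReal (1 / x) := by fun_prop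
    exact h0.comp hj1
  rw [lintegral_lintegral_swap hj2.aemeasurable]
  have e1 : ∀ v ∈ Ioo (0 : ℝ) τ, ∫⁻ ω in A, ENNReal.ofReal (1 / RR B (s + v.toNNReal) ω) ∂P =
      ∫⁻ ω in A, Lam (Ker v.toNNReal H2) (RR B s ω) ∂P := by
    intro v hv
    rw [← hA.markov hB (Real.toNNReal_pos.2 hv.1) meas_H2]
    refine lintegral_congr fun ω => ?_
    unfold H2
    simp only
    rw [← SR_add hB]
  rw [setLIntegral_congr_fun measurableSet_Ioo e1]
  have e2 : ∫⁻ ω in A, ENNReal.ofReal (2 * (SS B (s + τ) ω - SS B s ω)) ∂P =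
      ∫⁻ ω in A, Lam (Ker τ H1) (RR B s ω) ∂P := by
    rw [← hA.markov hB hτ meas_H1]
    refine lintegral_congr fun ω => ?_
    unfold H1
    simp only
    rw [← SR_add hB]
  rw [e2]
  have e3 : ∀ ω, Lam (Ker τ H1) (RR B s ω) =
      ∫⁻ v in Ioo (0 : ℝ) τ, Lam (Ker v.toNNReal H2) (RR B s ω) := fun ω =>
    key_id hτ (RR_nonneg hB s ω)
  simp_rw [e3]
  have e4 : ∀ ω, ∫⁻ v in Ioo (0 : ℝ) τ, Lam (Ker v.toNNReal H2) (RR B s ω) =
      ∫⁻ v in Ioo (0 : ℝ) τ, ∫⁻ u in Ioo (0 : ℝ) 1, 2 * pr v (u * RR B s ω) := by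
    intro ω
    refine setLIntegral_congr_fun measurableSet_Ioo fun v hv => ?_
    rw [Jform (Real.toNNReal_pos.2 hv.1) (RR_nonneg hB s ω)]
    rfl
  have e5 : ∀ v ∈ Ioo (0 : ℝ) τ, ∫⁻ ω in A, Lam (Ker v.toNNReal H2) (RR B s ω) ∂P =
      ∫⁻ ω in A, (∫⁻ u in Ioo (0 : ℝ) 1, 2 * pr v (u * RR B s ω)) ∂P := by
    intro v hv
    refine lintegral_congr fun ω => ?_
    rw [Jform (Real.toNNReal_pos.2 hv.1) (RR_nonneg hB s ω)]
    rfl
  simp_rw [e4]
  rw [setLIntegral_congr_fun measurableSet_Ioo e5]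
  refine lintegral_lintegral_swap (f := fun ω (v : ℝ) =>
    ∫⁻ u in Ioo (0 : ℝ) 1, 2 * pr v (u * RR B s ω)) ?_
  refine Measurable.aemeasurable ?_
  have h6 : Measurable (fun q : (Ω × ℝ) × ℝ => 2 * pr q.1.2 (q.2 * RR B s q.1.1)) := by
    have h7 : Measurable (fun q : (Ω × ℝ) × ℝ => pr q.1.2 (q.2 * RR B s q.1.1)) := by
      refine meas_pr.comp (f := fun q : (Ω × ℝ) × ℝ => (q.1.2, q.2 * RR B s q.1.1)) ?_
      have := hB.meas_RR s
      fun_prop
    fun_prop
  exact h6.lintegral_prod_right'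

/-- `E S_t < ∞` -/
lemma fin_S (hB : BM B P) (t : ℝ≥0) : ∫⁻ ω, ENNReal.ofReal (2 * SS B t ω) ∂P < ∞ := by
  have := hB.prob
  rcases eq_or_ne t 0 with h | h
  · subst h
    simp [SS_zero hB]
  have ht : 0 < t := pos_of_ne_zero h
  have h1 := (good_univ hB 0).markov hB ht meas_H1
  rw [Measure.restrict_univ] at h1
  have e1 : ∀ ω, H1 ((SS B 0 ω, RR B 0 ω), (SS (shB B 0) t ω, RR (shB B 0) t ω)) =
      ENNReal.ofReal (2 * SS B t ω) := by
    intro ω
    unfold H1
    simp only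
    rw [← SR_add hB, SS_zero hB, sub_zero, zero_add]
  simp_rw [e1, RR_zero hB] at h1
  rw [h1, lintegral_const, measure_univ, mul_one, Lform ht le_rfl]
  simp only [mul_zero]
  rw [← G2 ht le_rfl]
  have e2 : ∫⁻ x in Ioi (0 : ℝ), ENNReal.ofReal (2 * max 0 (x - 0)) * (2 * gaussianPDF 0 t x) =
      ∫⁻ x in Ioi (0 : ℝ), ENNReal.ofReal (4 * t) * qq t x := by
    refine setLIntegral_congr_fun measurableSet_Ioi fun x hx => ?_
    have hx' : 0 < x := hx
    have ht' : (0 : ℝ) < t := by exact_mod_cast ht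
    unfold qq
    rw [sub_zero, max_eq_right hx'.le, ← mul_assoc, ← mul_assoc, ← ENNReal.ofReal_mul (by positivity)]
    congr 1
    rw [show (2 : ℝ≥0∞) = ENNReal.ofReal 2 by simp, ← ENNReal.ofReal_mul (by positivity)]
    congr 1
    field_simp
    ring
  rw [e2, lintegral_const_mul _ (meas_qq t), tail ht.ne' le_rfl, setLIntegral_const]
  refine ENNReal.mul_lt_top (ENNReal.mul_lt_top ENNReal.ofReal_lt_top ?_) ?_
  · unfold gaussianPDF
    exact ENNReal.ofReal_lt_top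
  · simp

lemma lint_YY (hB : BM B P) (t : ℝ≥0) :
    ∫⁻ ω, YY B t ω ∂P = ∫⁻ ω, ENNReal.ofReal (2 * SS B t ω) ∂P := by
  rcases eq_or_ne t 0 with h | h
  · subst h
    simp [SS_zero hB, YY_zero]
  · have h1 := (good_univ hB 0).ident hB (pos_of_ne_zero h)
    simp only [Measure.restrict_univ, zero_add, SS_zero hB, sub_zero] at h1
    rw [h1]
    rfl

lemma meas_YY (hB : BM B P) (t : ℝ≥0) : Measurable (YY B t) :=
  YY_meas (cont_RR hB) (fun u _ => hB.meas_RR u)

lemma ae_YY (hB : BM B P) : ∀ᵐ ω ∂P, ∀ n : ℕ, YY B n ω < ∞ := by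
  rw [ae_all_iff]
  intro n
  refine ae_lt_top (meas_YY hB n) ?_
  rw [lint_YY hB]
  exact (fin_S hB n).ne

lemma raw_RR_le (hB : BM B P) (s : ℝ≥0) : raw (RR B) s ≤ raw B s :=
  raw_le fun u hu => (adapt_RR hB u).mono (raw_mono B hu) le_rfl

/-- the identity for all events of the past of `R` -/
lemma ident (hB : BM B P) {s τ : ℝ≥0} (hτ : 0 < τ) {A : Set Ω}
    (hA : MeasurableSet[raw (RR B) s] A) :
    ∫⁻ ω in A, ENNReal.ofReal (2 * (SS B (s + τ) ω - SS B s ω)) ∂P =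
      ∫⁻ ω in A, (∫⁻ v in Ioo (0 : ℝ) τ, ENNReal.ofReal (1 / RR B (s + v.toNNReal) ω)) ∂P := by
  have := hB.prob
  set f1 : Ω → ℝ≥0∞ := fun ω => ENNReal.ofReal (2 * (SS B (s + τ) ω - SS B s ω)) with hf1
  set f2 : Ω → ℝ≥0∞ := fun ω =>
    ∫⁻ v in Ioo (0 : ℝ) τ, ENNReal.ofReal (1 / RR B (s + v.toNNReal) ω) with hf2
  have hle : raw (RR B) s ≤ mΩ := (raw_RR_le hB s).trans (hB.raw_le s)
  set μ1 := (P.withDensity f1).trim hle with hμ1
  set μ2 := (P.withDensity f2).trim hle with hμ2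
  have hval1 : ∀ E, MeasurableSet[raw (RR B) s] E → μ1 E = ∫⁻ ω in E, f1 ω ∂P := by
    intro E hE
    rw [hμ1, trim_measurableSet_eq hle hE, withDensity_apply _ (hle _ hE)]
  have hval2 : ∀ E, MeasurableSet[raw (RR B) s] E → μ2 E = ∫⁻ ω in E, f2 ω ∂P := by
    intro E hE
    rw [hμ2, trim_measurableSet_eq hle hE, withDensity_apply _ (hle _ hE)]
  have hgood : ∀ E, Good B P s E → ∫⁻ ω in E, f1 ω ∂P = ∫⁻ ω in E, f2 ω ∂P :=
    fun E hE => hE.ident hB hτ
  have hfin1 : ∫⁻ ω, f1 ω ∂P < ∞ := by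
    refine lt_of_le_of_lt (lintegral_mono fun ω => ?_) (fin_S hB (s + τ))
    simp only [hf1]
    refine ENNReal.ofReal_le_ofReal ?_
    have := hB.SS_nonneg s ω
    linarith
  have hfin : IsFiniteMeasure μ1 := by
    constructor
    rw [hval1 univ MeasurableSet.univ, Measure.restrict_univ]
    exact hfin1
  have hμ : μ1 = μ2 := by
    refine @ext_of_generate_finite Ω (raw (RR B) s) μ1 μ2
      (piiUnionInter (fun u : ℝ≥0 => {E | MeasurableSet[MeasurableSpace.comap (RR B u)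
        inferInstance] E}) (Iic s)) ?_ ?_ hfin ?_ ?_
    · refine Eq.trans ?_ (generateFrom_piiUnionInter_measurableSet
        (fun u : ℝ≥0 => MeasurableSpace.comap (RR B u) inferInstance) (Iic s)).symm
      unfold raw
      rw [iSup_subtype']
    · exact isPiSystem_piiUnionInter _ (fun u => @MeasurableSpace.isPiSystem_measurableSet Ω
        (MeasurableSpace.comap (RR B u) inferInstance)) _
    · rintro E ⟨I, hI, f, hf, rfl⟩
      classical
      have hex : ∀ u, ∃ C : Set ℝ, MeasurableSet C ∧ (u ∈ I → RR B u ⁻¹' C = f u) := by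
        intro u
        by_cases hu : u ∈ I
        · obtain ⟨C, hC, hC'⟩ := hf u hu
          exact ⟨C, hC, fun _ => hC'⟩
        · exact ⟨∅, MeasurableSet.empty, fun h => absurd h hu⟩
      choose C hC hC' using hex
      have hE : (⋂ u ∈ I, f u) = ⋂ u ∈ I, RR B u ⁻¹' C u := by
        refine iInter₂_congr fun u hu => (hC' u hu).symm
      have hg := good_cyl hB C hC I s (fun u hu => hI hu)
      have hmE : MeasurableSet[raw (RR B) s] (⋂ u ∈ I, RR B u ⁻¹' C u) := by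
        refine Finset.measurableSet_biInter I fun u hu => ?_
        exact meas_raw (X := RR B) (hI hu) (hC u)
      rw [hE, hval1 _ hmE, hval2 _ hmE]
      exact hgood _ hg
    · rw [hval1 univ MeasurableSet.univ, hval2 univ MeasurableSet.univ]
      exact hgood _ (good_univ hB s)
  have h1 := hval1 A hA
  have h2 := hval2 A hA
  rw [← h1, ← h2, hμ]

end mart

end Pool.Agent.J4H99.PT
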