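import Pool.Agent.J4H99.PT.Law

/-!
# Pitman's theorem: given the past of `R = 2S - B`, the maximum `S` is uniform on `[0, R]`
-/

set_option autoImplicit false

open MeasureTheory ProbabilityTheory Filter Topology Set
open scoped ENNReal NNReal

namespace Pool.Agent.J4H99.PT

section rect

lemma scale {h : ℝ → ℝ≥0∞} (hh : Measurable h) {r : ℝ} (hr : 0 < r) :
    ∫⁻ s in Ioo 0 r, h s = ENNReal.ofReal r * ∫⁻ u in Ioo (0 : ℝ) 1, h (u * r) := by
  have := Lam_scale (g := fun q => h q.1) (by fun_prop) hr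
  exact this

/-- evolution of `(S, R)` -/
def Psi (a b : ℝ × ℝ) : ℝ × ℝ :=
  (max a.1 (2 * a.1 - a.2 + b.1), 2 * max a.1 (2 * a.1 - a.2 + b.1) - 2 * a.1 + a.2 - 2 * b.1 + b.2)

lemma meas_Psi : Measurable (fun q : (ℝ × ℝ) × (ℝ × ℝ) => Psi q.1 q.2) := by
  unfold Psi
  fun_prop

lemma Psi_lt {s r m ρ : ℝ} (h : m < r - s) : Psi (s, r) (m, ρ) = (s, r + ρ - 2 * m) := by
  unfold Psi
  simp only
  rw [max_eq_left (by linarith)]
  congr 1
  ring

lemma Psi_ge {s r m ρ : ℝ} (h : r - s ≤ m) :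
    Psi (s, r) (m, ρ) = (r - 2 * (r - s) + m, r + ρ - 2 * (r - s)) := by
  unfold Psi
  simp only
  rw [max_eq_right (by linarith)]
  congr 1 <;> ring

/-- the rectangle lemma -/
lemma rect {g : ℝ × ℝ → ℝ≥0∞} (hg : Measurable g) {r ρ : ℝ} (hr : 0 < r) (hρ : 0 < ρ) :
    ∫⁻ s in Ioo 0 r, ∫⁻ m in Ioo 0 ρ, g (Psi (s, r) (m, ρ)) =
      ∫⁻ z in Ioo 0 (min r ρ), ENNReal.ofReal (r + ρ - 2 * z) * Lam g (r + ρ - 2 * z) := by
  classical
  set F1 : ℝ → ℝ → ℝ≥0∞ := fun s m =>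
    if 0 < m ∧ m < ρ ∧ 0 < s ∧ s < r - m then g (s, r + ρ - 2 * m) else 0 with hF1
  set F2 : ℝ → ℝ → ℝ≥0∞ := fun z m =>
    if 0 < z ∧ z < r ∧ z ≤ m ∧ m < ρ then g (r - 2 * z + m, r + ρ - 2 * z) else 0 with hF2
  have hF1m : Measurable (Function.uncurry F1) := by
    simp only [hF1, Function.uncurry_def]
    refine Measurable.ite ?_ (by fun_prop) measurable_const
    refine (measurableSet_lt measurable_const measurable_snd).inter
      ((measurableSet_lt measurable_snd measurable_const).inter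
      ((measurableSet_lt measurable_const measurable_fst).inter
      (measurableSet_lt measurable_fst (by fun_prop))))
  have hF2m : Measurable (Function.uncurry F2) := by
    simp only [hF2, Function.uncurry_def]
    refine Measurable.ite ?_ (by fun_prop) measurable_const
    refine (measurableSet_lt measurable_const measurable_fst).inter
      ((measurableSet_lt measurable_fst measurable_const).inter
      ((measurableSet_le measurable_fst measurable_snd).inter
      (measurableSet_lt measurable_snd measurable_const)))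
  have e1 : ∫⁻ s in Ioo 0 r, ∫⁻ m in Ioo 0 ρ, g (Psi (s, r) (m, ρ)) =
      ∫⁻ s, ∫⁻ m, (F1 s m + F2 (r - s) m) := by
    rw [← lintegral_indicator measurableSet_Ioo]
    refine lintegral_congr fun s => ?_
    simp only [indicator, mem_Ioo]
    split_ifs with hs
    · rw [← lintegral_indicator measurableSet_Ioo]
      refine lintegral_congr fun m => ?_
      simp only [indicator, mem_Ioo, hF1, hF2]
      by_cases hm : 0 < m ∧ m < ρ
      · rw [if_pos hm]
        rcases lt_or_ge m (r - s) with h | h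
        · rw [Psi_lt h, if_pos ⟨hm.1, hm.2, hs.1, by linarith⟩,
            if_neg (fun h' => absurd h'.2.2.1 (not_le.2 h)), add_zero]
        · rw [Psi_ge h, if_neg (fun h' => by linarith [h'.2.2.2]),
            if_pos ⟨by linarith [hs.2], by linarith [hs.1], h, hm.2⟩, zero_add]
      · rw [if_neg hm, if_neg (fun h' => hm ⟨h'.1, h'.2.1⟩),
          if_neg (fun h' => hm ⟨by linarith [h'.1, h'.2.2.1], h'.2.2.2⟩), add_zero]
    · have : ∀ m, F1 s m + F2 (r - s) m = 0 := by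
        intro m
        simp only [hF1, hF2]
        rw [if_neg (fun h' => hs ⟨h'.2.2.1, by linarith [h'.1, h'.2.2.2]⟩),
          if_neg (fun h' => hs ⟨by linarith [h'.2.1], by linarith [h'.1]⟩), add_zero]
      simp [this]
  have e2 : ∫⁻ s, ∫⁻ m, (F1 s m + F2 (r - s) m) =
      ∫⁻ z, ((∫⁻ s, F1 s z) + ∫⁻ m, F2 z m) := by
    have k1 : ∀ s, ∫⁻ m, (F1 s m + F2 (r - s) m) = (∫⁻ m, F1 s m) + ∫⁻ m, F2 (r - s) m := by
      intro s
      exact lintegral_add_left (hF1m.comp (measurable_const.prodMk measurable_id)) _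
    simp_rw [k1]
    have k2 : Measurable (fun s => ∫⁻ m, F1 s m) := hF1m.lintegral_prod_right'
    have k3 : Measurable (fun z => ∫⁻ s, F1 s z) := by
      have : Measurable (Function.uncurry fun z s => F1 s z) := hF1m.comp measurable_swap
      exact this.lintegral_prod_right'
    rw [lintegral_add_left k2, lintegral_add_left k3]
    congr 1
    · exact lintegral_lintegral_swap hF1m.aemeasurable
    · exact lintegral_sub_left_eq_self (fun z => ∫⁻ m, F2 z m) r
  rw [e1, e2, ← lintegral_indicator measurableSet_Ioo]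
  refine lintegral_congr fun z => ?_
  have e3 : ∫⁻ m, F2 z m = ∫⁻ s, if 0 < z ∧ z < r ∧ r - z ≤ s ∧ s < r + ρ - 2 * z then
      g (s, r + ρ - 2 * z) else 0 := by
    rw [← lintegral_add_right_eq_self (fun s => if 0 < z ∧ z < r ∧ r - z ≤ s ∧
      s < r + ρ - 2 * z then g (s, r + ρ - 2 * z) else 0) (r - 2 * z)]
    refine lintegral_congr fun m => ?_
    simp only [hF2]
    have : (0 < z ∧ z < r ∧ z ≤ m ∧ m < ρ) ↔
        (0 < z ∧ z < r ∧ r - z ≤ m + (r - 2 * z) ∧ m + (r - 2 * z) < r + ρ - 2 * z) := by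
      constructor
      · rintro ⟨h1, h2, h3, h4⟩
        exact ⟨h1, h2, by linarith, by linarith⟩
      · rintro ⟨h1, h2, h3, h4⟩
        exact ⟨h1, h2, by linarith, by linarith⟩
    simp only [this, show r - 2 * z + m = m + (r - 2 * z) by ring]
  rw [e3]
  have hF1z : Measurable (fun s => F1 s z) := hF1m.comp (measurable_id.prodMk measurable_const)
  rw [← lintegral_add_left hF1z]
  simp only [indicator, mem_Ioo, lt_min_iff]
  split_ifs with hz
  · have hr' : 0 < r + ρ - 2 * z := by linarith [hz.2.1, hz.2.2]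
    rw [← Lam_scale hg hr', ← lintegral_indicator measurableSet_Ioo]
    refine lintegral_congr fun s => ?_
    simp only [hF1, indicator, mem_Ioo]
    by_cases h1 : s < r - z
    · by_cases h0 : 0 < s
      · rw [if_pos ⟨hz.1, hz.2.2, h0, h1⟩, if_neg (fun h' => by linarith [h'.2.2.1]), add_zero,
          if_pos ⟨h0, by linarith [hz.2.2]⟩]
      · rw [if_neg (fun h' => h0 h'.2.2.1), if_neg (fun h' => by linarith [h'.2.2.1]), add_zero,
          if_neg (fun h' => h0 h'.1)]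
    · have h1' := not_lt.1 h1
      rw [if_neg (fun h' => h1 h'.2.2.2), zero_add]
      by_cases h2 : s < r + ρ - 2 * z
      · rw [if_pos ⟨hz.1, hz.2.1, h1', h2⟩, if_pos ⟨by linarith [hz.2.1], h2⟩]
      · rw [if_neg (fun h' => h2 h'.2.2.2), if_neg (fun h' => h2 h'.2)]
  · have : ∀ s, F1 s z + (if 0 < z ∧ z < r ∧ r - z ≤ s ∧ s < r + ρ - 2 * z then
        g (s, r + ρ - 2 * z) else 0) = 0 := by
      intro s
      simp only [hF1]
      rw [if_neg (fun h' => hz ⟨h'.1, by linarith [h'.2.2.1, h'.2.2.2], h'.2.1⟩),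
        if_neg (fun h' => hz ⟨h'.1, h'.2.1, by linarith [h'.2.2.1, h'.2.2.2]⟩), add_zero]
    rw [lintegral_congr this, lintegral_zero]

/-- the kernel of `(S, R)` -/
noncomputable def Ker (τ : ℝ≥0) (H : (ℝ × ℝ) × (ℝ × ℝ) → ℝ≥0∞) (a : ℝ × ℝ) : ℝ≥0∞ :=
  ∫⁻ ρ in Ioi (0 : ℝ), kap τ ρ * Lam (fun b => H (a, b)) ρ

lemma meas_Lam2 {H : (ℝ × ℝ) × (ℝ × ℝ) → ℝ≥0∞} (hH : Measurable H) :
    Measurable (fun q : (ℝ × ℝ) × ℝ => Lam (fun b => H (q.1, b)) q.2) := by
  unfold Lam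
  have : Measurable (fun p : ((ℝ × ℝ) × ℝ) × ℝ => H (p.1.1, (p.2 * p.1.2, p.1.2))) := by fun_prop
  exact this.lintegral_prod_right'

lemma meas_Ker {τ : ℝ≥0} {H : (ℝ × ℝ) × (ℝ × ℝ) → ℝ≥0∞} (hH : Measurable H) :
    Measurable (Ker τ H) := by
  unfold Ker
  have h := meas_Lam2 hH
  have : Measurable (fun q : (ℝ × ℝ) × ℝ => kap τ q.2 * Lam (fun b => H (q.1, b)) q.2) := by
    fun_prop
  exact this.lintegral_prod_right'

lemma Lam_Ker {τ : ℝ≥0} {H : (ℝ × ℝ) × (ℝ × ℝ) → ℝ≥0∞} (hH : Measurable H) (r : ℝ) :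
    Lam (Ker τ H) r = ∫⁻ ρ in Ioi (0 : ℝ), kap τ ρ *
      ∫⁻ u in Ioo (0 : ℝ) 1, ∫⁻ v in Ioo (0 : ℝ) 1, H ((u * r, r), (v * ρ, ρ)) := by
  unfold Lam Ker
  rw [lintegral_lintegral_swap]
  swap
  · have h := meas_Lam2 hH
    have : Measurable (fun q : ℝ × ℝ => kap τ q.2 *
        Lam (fun b => H ((q.1 * r, r), b)) q.2) := by
      have h2 : Measurable (fun q : ℝ × ℝ => Lam (fun b => H ((q.1 * r, r), b)) q.2) :=
        h.comp (g := fun q : (ℝ × ℝ) × ℝ => Lam (fun b => H (q.1, b)) q.2)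
          (f := fun q : ℝ × ℝ => ((q.1 * r, r), q.2)) (by fun_prop)
      fun_prop
    exact this.aemeasurable
  refine lintegral_congr fun ρ => ?_
  rw [lintegral_const_mul]
  · rfl
  · have : Measurable (fun q : ℝ × ℝ => H ((q.1 * r, r), (q.2 * ρ, ρ))) := by fun_prop
    exact this.lintegral_prod_right'

/-- two uniform variables: only the average matters -/
lemma double {g : ℝ × ℝ → ℝ≥0∞} (hg : Measurable g) {r ρ : ℝ} (hr : 0 < r) (hρ : 0 < ρ) :
    ENNReal.ofReal (r * ρ) *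
      ∫⁻ u in Ioo (0 : ℝ) 1, ∫⁻ v in Ioo (0 : ℝ) 1, g (Psi (u * r, r) (v * ρ, ρ)) =
      ∫⁻ z in Ioo 0 (min r ρ), ENNReal.ofReal (r + ρ - 2 * z) * Lam g (r + ρ - 2 * z) := by
  rw [← rect hg hr hρ]
  have hΨ := meas_Psi
  have h1 : Measurable (fun s => ∫⁻ m in Ioo 0 ρ, g (Psi (s, r) (m, ρ))) := by
    have : Measurable (fun q : ℝ × ℝ => g (Psi (q.1, r) (q.2, ρ))) :=
      hg.comp (hΨ.comp (f := fun q : ℝ × ℝ => ((q.1, r), (q.2, ρ))) (by fun_prop))
    exact this.lintegral_prod_right'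
  have h2 : ∀ s : ℝ, Measurable (fun m => g (Psi (s, r) (m, ρ))) := by
    intro s
    exact hg.comp (hΨ.comp (f := fun m : ℝ => ((s, r), (m, ρ))) (by fun_prop))
  rw [scale h1 hr, ENNReal.ofReal_mul hr.le, mul_assoc]
  congr 1
  rw [← lintegral_const_mul']
  · refine lintegral_congr fun u => ?_
    rw [scale (h2 _) hρ]
  · exact ENNReal.ofReal_ne_top

lemma double_Lam {g : ℝ × ℝ → ℝ≥0∞} (hg : Measurable g) {r ρ : ℝ} (hr : 0 ≤ r) (hρ : 0 < ρ) :
    ∫⁻ u in Ioo (0 : ℝ) 1, ∫⁻ v in Ioo (0 : ℝ) 1, g (Psi (u * r, r) (v * ρ, ρ)) =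
      ∫⁻ u in Ioo (0 : ℝ) 1, ∫⁻ v in Ioo (0 : ℝ) 1, Lam g (Psi (u * r, r) (v * ρ, ρ)).2 := by
  have hg' : Measurable (fun q : ℝ × ℝ => Lam g q.2) := (meas_Lam hg).comp measurable_snd
  rcases hr.eq_or_lt with h | h
  · subst h
    have e : ∀ v ∈ Ioo (0 : ℝ) 1, Psi (0, 0) (v * ρ, ρ) = (v * ρ, ρ) := by
      intro v hv
      unfold Psi
      have : 0 < v * ρ := mul_pos hv.1 hρ
      simp only
      rw [max_eq_right (by linarith)]
      congr 1 <;> ring
    simp only [mul_zero]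
    have e1 : ∫⁻ v in Ioo (0 : ℝ) 1, g (Psi (0, 0) (v * ρ, ρ)) = Lam g ρ := by
      refine setLIntegral_congr_fun measurableSet_Ioo fun v hv => ?_
      rw [e v hv]
    have e2 : ∫⁻ v in Ioo (0 : ℝ) 1, Lam g (Psi (0, 0) (v * ρ, ρ)).2 = Lam g ρ := by
      have : ∫⁻ v in Ioo (0 : ℝ) 1, Lam g (Psi (0, 0) (v * ρ, ρ)).2 =
          ∫⁻ _v in Ioo (0 : ℝ) 1, Lam g ρ := by
        refine setLIntegral_congr_fun measurableSet_Ioo fun v hv => ?_
        rw [e v hv]
      rw [this]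
      simp
    simp only [e1, e2]
  · have h1 := double hg h hρ
    have h2 := double hg' h hρ
    simp only [Lam_snd] at h2
    rw [← h2] at h1
    have h3 : 0 < r * ρ := mul_pos h hρ
    exact (ENNReal.mul_right_inj (ENNReal.ofReal_pos.2 h3).ne' ENNReal.ofReal_ne_top).1 h1

/-- intertwining -/
lemma inter {τ : ℝ≥0} {g : ℝ × ℝ → ℝ≥0∞} (hg : Measurable g) {r : ℝ} (hr : 0 ≤ r) :
    Lam (Ker τ (fun q => g (Psi q.1 q.2))) r =
      Lam (Ker τ (fun q => Lam g (Psi q.1 q.2).2)) r := by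
  rw [Lam_Ker (H := fun q => g (Psi q.1 q.2)) (hg.comp meas_Psi),
    Lam_Ker (H := fun q => Lam g (Psi q.1 q.2).2)
      ((meas_Lam hg).comp (measurable_snd.comp meas_Psi))]
  refine setLIntegral_congr_fun measurableSet_Ioi fun ρ hρ => ?_
  simp only
  rw [double_Lam hg hr hρ]

end rect

section markov

variable {Ω : Type*} [mΩ : MeasurableSpace Ω] {P : Measure Ω} {B : ℝ≥0 → Ω → ℝ}

lemma SS_add (hB : BM B P) (s t : ℝ≥0) (ω : Ω) :
    SS B (s + t) ω = max (SS B s ω) (B s ω + SS (shB B s) t ω) := mx_add (hB.cont ω) s t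

lemma SR_add (hB : BM B P) (s t : ℝ≥0) (ω : Ω) :
    (SS B (s + t) ω, RR B (s + t) ω) =
      Psi (SS B s ω, RR B s ω) (SS (shB B s) t ω, RR (shB B s) t ω) := by
  have h1 := SS_add hB s t ω
  have h2 : 2 * SS B s ω - RR B s ω + SS (shB B s) t ω = B s ω + SS (shB B s) t ω := by
    unfold RR
    ring
  unfold Psi
  simp only [h2, ← h1]
  congr 1
  unfold RR shB
  ring

lemma RR_nonneg (hB : BM B P) (s : ℝ≥0) (ω : Ω) : 0 ≤ RR B s ω := by
  have h1 := hB.SS_nonneg s ω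
  have h2 := hB.le_SS s ω
  unfold RR
  linarith

lemma adapt_SS (hB : BM B P) (s : ℝ≥0) : Measurable[raw B s] (SS B s) :=
  meas_mx s (fun _ hu => meas_raw hu) hB.cont

lemma adapt_RR (hB : BM B P) (s : ℝ≥0) : Measurable[raw B s] (RR B s) :=
  Measurable.sub (Measurable.const_mul (adapt_SS hB s) 2) (meas_raw le_rfl)

lemma fut_SS (hB : BM B P) (s t : ℝ≥0) :
    Measurable[⨆ t : ℝ≥0, MeasurableSpace.comap (shB B s t) inferInstance] (SS (shB B s) t) :=
  meas_mx t (fun u _ => meas_fut B s u) (hB.shift s).cont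

lemma fut_RR (hB : BM B P) (s t : ℝ≥0) :
    Measurable[⨆ t : ℝ≥0, MeasurableSpace.comap (shB B s t) inferInstance] (RR (shB B s) t) :=
  Measurable.sub (Measurable.const_mul (fut_SS hB s t) 2) (meas_fut B s t)

/-- the Markov property of `(S, R)` -/
lemma markov (hB : BM B P) (s : ℝ≥0) {τ : ℝ≥0} (hτ : 0 < τ) {A : Set Ω}
    (hA : MeasurableSet[raw B s] A) {H : (ℝ × ℝ) × (ℝ × ℝ) → ℝ≥0∞} (hH : Measurable H) :
    ∫⁻ ω in A, H ((SS B s ω, RR B s ω), (SS (shB B s) τ ω, RR (shB B s) τ ω)) ∂P =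
      ∫⁻ ω in A, Ker τ H (SS B s ω, RR B s ω) ∂P := by
  have := hB.prob
  have hf : Measurable[raw B s] (fun ω => (SS B s ω, RR B s ω)) :=
    Measurable.prodMk (adapt_SS hB s) (adapt_RR hB s)
  have hD : Measurable[⨆ t : ℝ≥0, MeasurableSpace.comap (shB B s t) inferInstance]
      (fun ω => (SS (shB B s) τ ω, RR (shB B s) τ ω)) :=
    Measurable.prodMk (fut_SS hB s τ) (fut_RR hB s τ)
  rw [indep_lint (hB.raw_le s) (hB.fut_le s) (hB.indep s) hf hD hH hA]
  refine lintegral_congr fun ω => ?_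
  have hHa : ∀ a, Measurable (fun b => H (a, b)) := fun a => by fun_prop
  rw [lintegral_map (hHa _) (hD.mono (hB.fut_le s) le_rfl),
    law_SR (hB.shift s) hτ (hHa _)]
  rfl

/-- given the event `A` and `R`, the maximum `S` is uniform on `[0, R]` at time `s` -/
structure Good (B : ℝ≥0 → Ω → ℝ) (P : Measure Ω) (s : ℝ≥0) (A : Set Ω) : Prop where
  meas : MeasurableSet[raw B s] A
  unif : ∀ g : ℝ × ℝ → ℝ≥0∞, Measurable g →
    ∫⁻ ω in A, g (SS B s ω, RR B s ω) ∂P = ∫⁻ ω in A, Lam g (RR B s ω) ∂P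

lemma Good.markov (hB : BM B P) {s τ : ℝ≥0} (hτ : 0 < τ) {A : Set Ω} (hA : Good B P s A)
    {H : (ℝ × ℝ) × (ℝ × ℝ) → ℝ≥0∞} (hH : Measurable H) :
    ∫⁻ ω in A, H ((SS B s ω, RR B s ω), (SS (shB B s) τ ω, RR (shB B s) τ ω)) ∂P =
      ∫⁻ ω in A, Lam (Ker τ H) (RR B s ω) ∂P := by
  rw [PT.markov hB s hτ hA.meas hH, hA.unif _ (meas_Ker hH)]

lemma Good.step (hB : BM B P) {s t : ℝ≥0} (hst : s ≤ t) {A : Set Ω} (hA : Good B P s A) :
    Good B P t A := by
  rcases hst.eq_or_lt with h | h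
  · rw [← h]; exact hA
  refine ⟨raw_mono B hst _ hA.meas, fun g hg => ?_⟩
  set τ := t - s with hτ
  have hτ0 : 0 < τ := tsub_pos_of_lt h
  have ht : t = s + τ := (add_tsub_cancel_of_le hst).symm
  have e1 : ∀ ω, g (SS B t ω, RR B t ω) =
      g (Psi (SS B s ω, RR B s ω) (SS (shB B s) τ ω, RR (shB B s) τ ω)) := by
    intro ω
    rw [ht, SR_add hB]
  have e2 : ∀ ω, Lam g (RR B t ω) =
      Lam g (Psi (SS B s ω, RR B s ω) (SS (shB B s) τ ω, RR (shB B s) τ ω)).2 := by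
    intro ω
    rw [ht, ← SR_add hB]
  simp_rw [e1, e2]
  rw [hA.markov hB hτ0 (H := fun q => g (Psi q.1 q.2)) (hg.comp meas_Psi),
    hA.markov hB hτ0 (H := fun q => Lam g (Psi q.1 q.2).2)
      ((meas_Lam hg).comp (measurable_snd.comp meas_Psi))]
  refine lintegral_congr fun ω => ?_
  exact inter hg (RR_nonneg hB s ω)

lemma good_univ (hB : BM B P) (s : ℝ≥0) : Good B P s univ := by
  refine ⟨MeasurableSet.univ, fun g hg => ?_⟩
  rw [Measure.restrict_univ]
  rcases eq_or_ne s 0 with h | h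
  · subst h
    refine lintegral_congr fun ω => ?_
    have h1 : SS B 0 ω = 0 := by
      unfold SS
      rw [mx_zero, hB.zero]
    have h2 : RR B 0 ω = 0 := by
      unfold RR
      rw [h1, hB.zero]
      ring
    rw [h1, h2]
    unfold Lam
    simp
  · have hs : 0 < s := pos_of_ne_zero h
    rw [law_SR hB hs hg]
    have := law_SR hB hs (g := fun q => Lam g q.2) ((meas_Lam hg).comp measurable_snd)
    simp only [Lam_snd] at this
    rw [this]

lemma Good.cut (hB : BM B P) {s : ℝ≥0} {A : Set Ω} (hA : Good B P s A) {C : Set ℝ}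
    (hC : MeasurableSet C) : Good B P s (A ∩ RR B s ⁻¹' C) := by
  have hm : MeasurableSet[raw B s] (RR B s ⁻¹' C) := adapt_RR hB s hC
  refine ⟨hA.meas.inter hm, fun g hg => ?_⟩
  have hm' : MeasurableSet (RR B s ⁻¹' C) := hB.raw_le s _ hm
  have key : ∀ f : Ω → ℝ≥0∞, ∫⁻ ω in A ∩ RR B s ⁻¹' C, f ω ∂P =
      ∫⁻ ω in A, (RR B s ⁻¹' C).indicator f ω ∂P := by
    intro f
    rw [lintegral_indicator hm', Measure.restrict_restrict hm', inter_comm]
  rw [key, key]
  have h := hA.unif (fun q => C.indicator 1 q.2 * g q) (by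
    have : Measurable (fun q : ℝ × ℝ => C.indicator (1 : ℝ → ℝ≥0∞) q.2) :=
      (measurable_one.indicator hC).comp measurable_snd
    fun_prop)
  have e1 : ∀ ω, (RR B s ⁻¹' C).indicator (fun ω => g (SS B s ω, RR B s ω)) ω =
      C.indicator 1 (RR B s ω) * g (SS B s ω, RR B s ω) := by
    intro ω
    by_cases h1 : RR B s ω ∈ C
    · rw [indicator_of_mem h1, indicator_of_mem (show ω ∈ RR B s ⁻¹' C from h1), Pi.one_apply,
        one_mul]
    · rw [indicator_of_notMem h1, indicator_of_notMem (show ω ∉ RR B s ⁻¹' C from h1), zero_mul]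
  have e2 : ∀ ω, (RR B s ⁻¹' C).indicator (fun ω => Lam g (RR B s ω)) ω =
      Lam (fun q => C.indicator 1 q.2 * g q) (RR B s ω) := by
    intro ω
    unfold Lam
    by_cases h1 : RR B s ω ∈ C
    · rw [indicator_of_mem (show ω ∈ RR B s ⁻¹' C from h1)]
      simp only [indicator_of_mem h1, Pi.one_apply, one_mul]
    · rw [indicator_of_notMem (show ω ∉ RR B s ⁻¹' C from h1)]
      simp only [indicator_of_notMem h1, zero_mul, lintegral_zero]
  simp_rw [e1, e2]
  exact h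

/-- finite dimensional events of `R` are good -/
lemma good_cyl (hB : BM B P) (C : ℝ≥0 → Set ℝ) (hC : ∀ u, MeasurableSet (C u))
    (I : Finset ℝ≥0) : ∀ t, (∀ u ∈ I, u ≤ t) → Good B P t (⋂ u ∈ I, RR B u ⁻¹' C u) := by
  induction I using Finset.induction_on_max with
  | empty =>
    intro t _
    simpa using good_univ hB t
  | insert a I ha ih =>
    intro t ht
    have hat : a ≤ t := ht a (Finset.mem_insert_self _ _)
    have h1 := ih a (fun u hu => (ha u hu).le)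
    have h2 := h1.cut hB (hC a)
    have h3 : (⋂ u ∈ insert a I, RR B u ⁻¹' C u) =
        (⋂ u ∈ I, RR B u ⁻¹' C u) ∩ RR B a ⁻¹' C a := by
      rw [Finset.set_biInter_insert, inter_comm]
    rw [h3]
    exact h2.step hB hat

end markov

end Pool.Agent.J4H99.PT
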