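import Pool.Agent.J4H99.PT.Base

/-!
# The reflection principle
-/

set_option autoImplicit false

open MeasureTheory ProbabilityTheory Filter Topology Set
open scoped ENNReal NNReal

namespace Pool.Agent.J4H99.PT

section indep

variable {Ω : Type*} {m1 m2 mΩ : MeasurableSpace Ω} {P : Measure Ω} [IsProbabilityMeasure P]

/-- integration of a function of two independent variables -/
lemma indep_lint (h1 : m1 ≤ mΩ) (h2 : m2 ≤ mΩ) (h : Indep m1 m2 P) {α β : Type*}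
    [MeasurableSpace α] [MeasurableSpace β] {f : Ω → α} {D : Ω → β} (hf : Measurable[m1] f)
    (hD : Measurable[m2] D) {g : α × β → ℝ≥0∞} (hg : Measurable g) {E : Set Ω}
    (hE : MeasurableSet[m1] E) :
    ∫⁻ ω in E, g (f ω, D ω) ∂P = ∫⁻ ω in E, ∫⁻ d, g (f ω, d) ∂(P.map D) ∂P := by
  classical
  have hf' : @Measurable Ω α mΩ _ f := hf.mono h1 le_rfl
  have hD' : @Measurable Ω β mΩ _ D := hD.mono h2 le_rfl
  have hE' : @MeasurableSet Ω mΩ E := h1 _ hE
  set J : Ω → ℝ≥0∞ := E.indicator 1 with hJ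
  have hJm : Measurable[m1] J := by
    have h0 : @Measurable Ω ℝ≥0∞ m1 _ (1 : Ω → ℝ≥0∞) := @measurable_const _ _ _ m1 1
    exact Measurable.indicator h0 hE
  have hJ' : @Measurable Ω _ mΩ _ J := hJm.mono h1 le_rfl
  have hpair : Measurable[m1] (fun ω => (f ω, J ω)) := hf.prodMk hJm
  have hind : IndepFun (fun ω => (f ω, J ω)) D P := by
    rw [IndepFun_iff_Indep]
    exact indep_of_indep_of_le_left (indep_of_indep_of_le_right h hD.comap_le) hpair.comap_le
  have hprob : IsProbabilityMeasure (P.map D) := Measure.isProbabilityMeasure_map hD'.aemeasurable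
  have hprob2 : IsProbabilityMeasure (P.map (fun ω => (f ω, J ω))) :=
    Measure.isProbabilityMeasure_map (hf'.prodMk hJ').aemeasurable
  have hmap := (indepFun_iff_map_prod_eq_prod_map_map (hf'.prodMk hJ').aemeasurable
    hD'.aemeasurable).1 hind
  set G : (α × ℝ≥0∞) × β → ℝ≥0∞ := fun q => q.1.2 * g (q.1.1, q.2) with hG
  have hGm : Measurable G := by
    simp only [hG]
    fun_prop
  have e1 : ∫⁻ ω in E, g (f ω, D ω) ∂P = ∫⁻ ω, G ((f ω, J ω), D ω) ∂P := by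
    rw [← lintegral_indicator hE']
    refine lintegral_congr fun ω => ?_
    simp only [hG, hJ]
    by_cases hω : ω ∈ E
    · simp [hω]
    · simp [hω]
  have e2 : ∫⁻ ω, G ((f ω, J ω), D ω) ∂P = ∫⁻ q, G q ∂(P.map (fun ω => ((f ω, J ω), D ω))) := by
    rw [lintegral_map hGm ((hf'.prodMk hJ').prodMk hD')]
  have hGm2 : Measurable (fun x : α × ℝ≥0∞ => ∫⁻ y, G (x, y) ∂(P.map D)) :=
    hGm.lintegral_prod_right'
  rw [e1, e2, hmap, lintegral_prod _ hGm.aemeasurable, lintegral_map hGm2 (hf'.prodMk hJ'),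
    ← lintegral_indicator hE']
  refine lintegral_congr fun ω => ?_
  simp only [hG, hJ]
  by_cases hω : ω ∈ E
  · simp [hω]
  · simp [hω]

end indep

section gauss

lemma gauss_symm (v : ℝ≥0) (x : ℝ) : gaussianReal 0 v (Iic x) = gaussianReal 0 v (Ici (-x)) := by
  have e : Measure.map (fun x : ℝ => -x) (gaussianReal 0 v) = gaussianReal 0 v := by
    rw [gaussianReal_map_neg, neg_zero]
  conv_lhs => rw [← e]
  rw [Measure.map_apply measurable_neg measurableSet_Iic]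
  congr 1
  ext y
  simp

/-- bound of the density -/
noncomputable def gC (v : ℝ≥0) : ℝ≥0 := Real.toNNReal (√(2 * Real.pi * v))⁻¹

lemma gauss_le {v : ℝ≥0} (hv : v ≠ 0) (s : Set ℝ) : gaussianReal 0 v s ≤ gC v * volume s := by
  rw [gaussianReal_apply 0 hv]
  calc ∫⁻ x in s, gaussianPDF 0 v x ≤ ∫⁻ _x in s, (gC v : ℝ≥0∞) := by
        refine lintegral_mono fun x => ?_
        rw [gaussianPDF, gaussianPDFReal, gC]
        refine ENNReal.ofReal_le_ofReal ?_
        have h3 : Real.exp (-(x - 0) ^ 2 / (2 * v)) ≤ 1 := by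
          rw [Real.exp_le_one_iff]
          apply div_nonpos_of_nonpos_of_nonneg
          · nlinarith [sq_nonneg (x - 0)]
          · positivity
        calc (√(2 * Real.pi * v))⁻¹ * Real.exp (-(x - 0) ^ 2 / (2 * v))
            ≤ (√(2 * Real.pi * v))⁻¹ * 1 := mul_le_mul_of_nonneg_left h3 (by positivity)
          _ = _ := mul_one _
    _ = gC v * volume s := by rw [setLIntegral_const]

lemma gauss_Ici_le {v : ℝ≥0} (hv : v ≠ 0) {x y : ℝ} (h : x ≤ y) :
    gaussianReal 0 v (Ici x) ≤ gaussianReal 0 v (Ici y) + gC v * ENNReal.ofReal (y - x) := by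
  have h1 : Ici x ⊆ Ici y ∪ Ico x y := by
    intro z hz
    rcases le_or_gt y z with h | h
    · exact Or.inl h
    · exact Or.inr ⟨hz, h⟩
  refine (measure_mono h1).trans ((measure_union_le _ _).trans ?_)
  gcongr
  refine (gauss_le hv _).trans ?_
  rw [Real.volume_Ico]

end gauss

section refl

variable {Ω : Type*} [mΩ : MeasurableSpace Ω] {P : Measure Ω} {B : ℝ≥0 → Ω → ℝ}

lemma BM.raw_le (hB : BM B P) (t : ℝ≥0) : raw B t ≤ mΩ := PT.raw_le fun u _ => hB.meas u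

lemma BM.fut_le (hB : BM B P) (s : ℝ≥0) :
    (⨆ t : ℝ≥0, MeasurableSpace.comap (shB B s t) inferInstance) ≤ mΩ :=
  iSup_le fun t => ((hB.shift s).meas t).comap_le

lemma meas_fut (B : ℝ≥0 → Ω → ℝ) (s t : ℝ≥0) :
    Measurable[⨆ t : ℝ≥0, MeasurableSpace.comap (shB B s t) inferInstance] (shB B s t) :=
  Measurable.of_comap_le
    (le_iSup (fun t : ℝ≥0 => MeasurableSpace.comap (shB B s t) inferInstance) t)

/-- symmetry of the increment after time `s` -/
lemma refl_one (hB : BM B P) {s τ : ℝ≥0} (hs : s ≤ τ) {E : Set Ω} (hE : MeasurableSet[raw B s] E)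
    (c : ℝ) : P (E ∩ {ω | B τ ω ≤ c}) = P (E ∩ {ω | 2 * B s ω - c ≤ B τ ω}) := by
  have := hB.prob
  have hE' := hB.raw_le s _ hE
  set D : Ω → ℝ := shB B s (τ - s) with hD
  have hDe : ∀ ω, B τ ω = B s ω + D ω := by
    intro ω
    simp only [hD, shB, add_tsub_cancel_of_le hs]
    ring
  have hlaw : P.map D = gaussianReal 0 (τ - s) := (hB.shift s).law _
  have h := fun g hg => indep_lint (g := g) (hB.raw_le s) (hB.fut_le s) (hB.indep s)
    (meas_raw (X := B) (le_refl s)) (meas_fut B s (τ - s)) hg hE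
  rw [← hD, hlaw] at h
  have m1 : MeasurableSet {q : ℝ × ℝ | q.1 + q.2 ≤ c} :=
    measurableSet_le (by fun_prop) measurable_const
  have m2 : MeasurableSet {q : ℝ × ℝ | 2 * q.1 - c ≤ q.1 + q.2} :=
    measurableSet_le (by fun_prop) (by fun_prop)
  have k1 := h ({q : ℝ × ℝ | q.1 + q.2 ≤ c}.indicator 1) (measurable_one.indicator m1)
  have k2 := h ({q : ℝ × ℝ | 2 * q.1 - c ≤ q.1 + q.2}.indicator 1) (measurable_one.indicator m2)
  have hDm : Measurable D := (hB.shift s).meas _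
  have l1 : ∫⁻ ω in E, ({q : ℝ × ℝ | q.1 + q.2 ≤ c}.indicator 1) (B s ω, D ω) ∂P =
      P (E ∩ {ω | B τ ω ≤ c}) := by
    have hm : MeasurableSet {ω | B τ ω ≤ c} := measurableSet_le (hB.meas _) measurable_const
    rw [inter_comm, ← Measure.restrict_apply hm, ← lintegral_indicator_one hm]
    refine lintegral_congr fun ω => ?_
    simp only [indicator, mem_ofPred_eq, hDe]
    rfl
  have l2 : ∫⁻ ω in E, ({q : ℝ × ℝ | 2 * q.1 - c ≤ q.1 + q.2}.indicator 1) (B s ω, D ω) ∂P =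
      P (E ∩ {ω | 2 * B s ω - c ≤ B τ ω}) := by
    have hm : MeasurableSet {ω | 2 * B s ω - c ≤ B τ ω} :=
      measurableSet_le (((hB.meas _).const_mul _).sub_const _) (hB.meas _)
    rw [inter_comm, ← Measure.restrict_apply hm, ← lintegral_indicator_one hm]
    refine lintegral_congr fun ω => ?_
    simp only [indicator, mem_ofPred_eq, hDe]
    rfl
  rw [← l1, ← l2, k1, k2]
  refine lintegral_congr fun ω => ?_
  have n1 : ∫⁻ d, ({q : ℝ × ℝ | q.1 + q.2 ≤ c}.indicator 1) (B s ω, d)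
      ∂(gaussianReal 0 (τ - s)) = gaussianReal 0 (τ - s) (Iic (c - B s ω)) := by
    rw [← lintegral_indicator_one measurableSet_Iic]
    refine lintegral_congr fun d => ?_
    simp only [indicator, mem_ofPred_eq, mem_Iic]
    have : B s ω + d ≤ c ↔ d ≤ c - B s ω := by constructor <;> intro h <;> linarith
    simp only [this]
    rfl
  have n2 : ∫⁻ d, ({q : ℝ × ℝ | 2 * q.1 - c ≤ q.1 + q.2}.indicator 1) (B s ω, d)
      ∂(gaussianReal 0 (τ - s)) = gaussianReal 0 (τ - s) (Ici (-(c - B s ω))) := by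
    rw [← lintegral_indicator_one measurableSet_Ici]
    refine lintegral_congr fun d => ?_
    simp only [indicator, mem_ofPred_eq, mem_Ici]
    have : 2 * B s ω - c ≤ B s ω + d ↔ -(c - B s ω) ≤ d := by
      constructor <;> intro h <;> linarith
    simp only [this]
    rfl
  rw [n1, n2, gauss_symm]

/-- dyadic times -/
noncomputable def dy (τ : ℝ≥0) (n k : ℕ) : ℝ≥0 := τ * (k / 2 ^ n)

lemma dy_last (τ : ℝ≥0) (n : ℕ) : dy τ n (2 ^ n) = τ := by
  unfold dy
  push_cast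
  rw [div_self (by positivity), mul_one]

lemma dy_mono (τ : ℝ≥0) (n : ℕ) : Monotone (dy τ n) := by
  intro a b h
  unfold dy
  gcongr

lemma dy_le {τ : ℝ≥0} {n k : ℕ} (h : k ≤ 2 ^ n) : dy τ n k ≤ τ := by
  rw [← dy_last τ n]
  simpa only [dy_last] using dy_mono τ n h

lemma dy_two (τ : ℝ≥0) (n j : ℕ) : dy τ (n + 1) (2 * j) = dy τ n j := by
  unfold dy
  rw [pow_succ]
  push_cast
  field_simp

/-- first passage above `a` on the grid -/
def fp (B : ℝ≥0 → Ω → ℝ) (τ : ℝ≥0) (n : ℕ) (a : ℝ) (k : ℕ) : Set Ω :=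
  {ω | (∀ j, j < k → B (dy τ n j) ω < a) ∧ a ≤ B (dy τ n k) ω}

lemma fp_meas (B : ℝ≥0 → Ω → ℝ) (τ : ℝ≥0) (n : ℕ) (a : ℝ) (k : ℕ) :
    MeasurableSet[raw B (dy τ n k)] (fp B τ n a k) := by
  have h1 : MeasurableSet[raw B (dy τ n k)] {ω | ∀ j, j < k → B (dy τ n j) ω < a} := by
    have : {ω | ∀ j, j < k → B (dy τ n j) ω < a} = ⋂ j, ⋂ (_ : j < k), {ω | B (dy τ n j) ω < a} := by
      ext ω
      simp
    rw [this]
    exact MeasurableSet.iInter fun j => MeasurableSet.iInter fun hj =>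
      measurableSet_lt (meas_raw (dy_mono τ n hj.le)) measurable_const
  exact h1.inter (measurableSet_le measurable_const (meas_raw le_rfl))

lemma fp_disj (B : ℝ≥0 → Ω → ℝ) (τ : ℝ≥0) (n : ℕ) (a : ℝ) (s : Set ℕ) :
    s.PairwiseDisjoint (fp B τ n a) := by
  intro k _ l _ hkl
  rw [Function.onFun, Set.disjoint_left]
  intro ω h1 h2
  rcases lt_trichotomy k l with h | h | h
  · have := h2.1 k h
    linarith [h1.2]
  · exact hkl h
  · have := h1.1 l h
    linarith [h2.2]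

/-- the discrete reflection principle -/
lemma refl_disc (hB : BM B P) (τ : ℝ≥0) (n : ℕ) (a c : ℝ) :
    P {ω | (∃ k ≤ 2 ^ n, a ≤ B (dy τ n k) ω) ∧ B τ ω ≤ c} =
      P {ω | ∃ k ≤ 2 ^ n, ω ∈ fp B τ n a k ∧ 2 * B (dy τ n k) ω - c ≤ B τ ω} := by
  have e1 : {ω | (∃ k ≤ 2 ^ n, a ≤ B (dy τ n k) ω) ∧ B τ ω ≤ c} =
      ⋃ k ∈ Finset.range (2 ^ n + 1), (fp B τ n a k ∩ {ω | B τ ω ≤ c}) := by
    ext ω
    simp only [mem_ofPred_eq, mem_iUnion, Finset.mem_range, exists_prop, mem_inter_iff]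
    constructor
    · rintro ⟨⟨k, hk, h⟩, hc⟩
      classical
      have hex : ∃ k, a ≤ B (dy τ n k) ω := ⟨k, h⟩
      refine ⟨Nat.find hex, ?_, ⟨?_, Nat.find_spec hex⟩, hc⟩
      · have := Nat.find_min' hex h
        omega
      · intro j hj
        exact not_le.1 (Nat.find_min hex hj)
    · rintro ⟨k, hk, h, hc⟩
      exact ⟨⟨k, by omega, h.2⟩, hc⟩
  have e2 : {ω | ∃ k ≤ 2 ^ n, ω ∈ fp B τ n a k ∧ 2 * B (dy τ n k) ω - c ≤ B τ ω} =
      ⋃ k ∈ Finset.range (2 ^ n + 1), (fp B τ n a k ∩ {ω | 2 * B (dy τ n k) ω - c ≤ B τ ω}) := by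
    ext ω
    simp only [mem_ofPred_eq, mem_iUnion, Finset.mem_range, exists_prop, mem_inter_iff]
    constructor
    · rintro ⟨k, hk, h⟩
      exact ⟨k, by omega, h⟩
    · rintro ⟨k, hk, h⟩
      exact ⟨k, by omega, h⟩
  have hm := fun k => hB.raw_le _ _ (fp_meas B τ n a k)
  rw [e1, e2, measure_biUnion_finset, measure_biUnion_finset]
  · refine Finset.sum_congr rfl fun k hk => ?_
    have hk' : k ≤ 2 ^ n := by
      have := Finset.mem_range.1 hk
      omega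
    exact refl_one hB (dy_le hk') (fp_meas B τ n a k) c
  · exact (fp_disj B τ n a _).mono fun k => inter_subset_left
  · intro k _
    exact (hm k).inter (measurableSet_le (((hB.meas _).const_mul _).sub_const _) (hB.meas _))
  · exact (fp_disj B τ n a _).mono fun k => inter_subset_left
  · intro k _
    exact (hm k).inter (measurableSet_le (hB.meas _) measurable_const)

lemma dy_floor {τ s : ℝ≥0} (hs : s ≤ τ) (hτ : 0 < τ) (n : ℕ) :
    dy τ n ⌊s / τ * 2 ^ n⌋₊ ≤ s ∧ s ≤ dy τ n ⌊s / τ * 2 ^ n⌋₊ + τ / 2 ^ n ∧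
      ⌊s / τ * 2 ^ n⌋₊ ≤ 2 ^ n := by
  have h2 : (0 : ℝ≥0) < 2 ^ n := by positivity
  have h1 : (⌊s / τ * 2 ^ n⌋₊ : ℝ≥0) ≤ s / τ * 2 ^ n := Nat.floor_le zero_le
  have h3 : s / τ * 2 ^ n ≤ (⌊s / τ * 2 ^ n⌋₊ : ℝ≥0) + 1 := (Nat.lt_floor_add_one _).le
  have e : s = τ * (s / τ * 2 ^ n / 2 ^ n) := by
    rw [mul_div_assoc, div_self h2.ne', mul_one, mul_div_cancel₀ _ hτ.ne']
  refine ⟨?_, ?_, ?_⟩
  · unfold dy
    conv_rhs => rw [e]
    gcongr
  · unfold dy
    conv_lhs => rw [e]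
    calc τ * (s / τ * 2 ^ n / 2 ^ n) ≤ τ * (((⌊s / τ * 2 ^ n⌋₊ : ℝ≥0) + 1) / 2 ^ n) := by gcongr
      _ = τ * ((⌊s / τ * 2 ^ n⌋₊ : ℝ≥0) / 2 ^ n) + τ / 2 ^ n := by
          field_simp
  · have : (⌊s / τ * 2 ^ n⌋₊ : ℝ≥0) ≤ 2 ^ n := by
      refine h1.trans ?_
      calc s / τ * 2 ^ n ≤ 1 * 2 ^ n := by
            gcongr
            rw [div_le_one₀ hτ]
            exact hs
        _ = 2 ^ n := one_mul _
    exact_mod_cast this

lemma tendsto_mesh (τ : ℝ≥0) : Tendsto (fun n : ℕ => τ / 2 ^ n) atTop (𝓝 0) := by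
  have h : Tendsto (fun n : ℕ => ((τ / 2 ^ n : ℝ≥0) : ℝ)) atTop (𝓝 ((0 : ℝ≥0) : ℝ)) := by
    have h1 : Tendsto (fun n : ℕ => (τ : ℝ) * (1 / 2) ^ n) atTop (𝓝 (τ * 0)) :=
      (tendsto_pow_atTop_nhds_zero_of_lt_one (by norm_num) (by norm_num)).const_mul _
    rw [mul_zero] at h1
    simp only [NNReal.coe_zero]
    refine h1.congr fun n => ?_
    push_cast
    rw [one_div, inv_pow, div_eq_mul_inv]
  exact NNReal.tendsto_coe.1 h

/-- grid points converge -/
lemma dy_tendsto {τ s : ℝ≥0} (hs : s ≤ τ) (hτ : 0 < τ) :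
    Tendsto (fun n => dy τ n ⌊s / τ * 2 ^ n⌋₊) atTop (𝓝 s) := by
  have h1 : Tendsto (fun n : ℕ => s - τ / 2 ^ n) atTop (𝓝 (s - 0)) :=
    tendsto_const_nhds.sub (tendsto_mesh τ)
  rw [tsub_zero] at h1
  refine tendsto_of_tendsto_of_tendsto_of_le_of_le h1 tendsto_const_nhds ?_ ?_
  · intro n
    simp only
    rw [tsub_le_iff_right]
    exact (dy_floor hs hτ n).2.1
  · intro n
    exact (dy_floor hs hτ n).1

lemma refl_upper (hB : BM B P) {τ : ℝ≥0} (hτ : 0 < τ) {a a' c : ℝ} (ha : a' < a) :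
    P {ω | a ≤ mx (fun u => B u ω) τ ∧ B τ ω ≤ c} ≤ gaussianReal 0 τ (Ici (2 * a' - c)) := by
  set U : ℕ → Set Ω := fun n => {ω | (∃ k ≤ 2 ^ n, a' ≤ B (dy τ n k) ω) ∧ B τ ω ≤ c} with hU
  have hmono : Monotone U := by
    refine monotone_nat_of_le_succ fun n => ?_
    rintro ω ⟨⟨k, hk, h⟩, hc⟩
    refine ⟨⟨2 * k, ?_, ?_⟩, hc⟩
    · rw [pow_succ]; omega
    · rw [dy_two]; exact h
  have hsub : {ω | a ≤ mx (fun u => B u ω) τ ∧ B τ ω ≤ c} ⊆ ⋃ n, U n := by
    rintro ω ⟨h1, h2⟩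
    obtain ⟨s, hs, hs'⟩ := mx_mem (hB.cont ω) τ
    rw [hs'] at h1
    have ht : Tendsto (fun n => B (dy τ n ⌊s / τ * 2 ^ n⌋₊) ω) atTop (𝓝 (B s ω)) :=
      ((hB.cont ω).tendsto s).comp (dy_tendsto hs hτ)
    have hev := ht.eventually (lt_mem_nhds (lt_of_lt_of_le ha h1))
    obtain ⟨n, hn⟩ := hev.exists
    exact mem_iUnion.2 ⟨n, ⟨⟨_, (dy_floor hs hτ n).2.2, le_of_lt hn⟩, h2⟩⟩
  refine (measure_mono hsub).trans ?_
  rw [hmono.measure_iUnion]
  refine iSup_le fun n => ?_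
  simp only [hU]
  rw [refl_disc hB τ n a' c, ← hB.law τ, Measure.map_apply (hB.meas τ) measurableSet_Ici]
  refine measure_mono ?_
  rintro ω ⟨k, _, h1, h2⟩
  show 2 * a' - c ≤ B τ ω
  have := h1.2
  linarith

lemma refl_lower (hB : BM B P) {τ : ℝ≥0} (hτ : 0 < τ) {a c δ : ℝ} (ha : 0 < a) (hca : c ≤ a)
    (hδ : 0 < δ) : gaussianReal 0 τ (Ici (2 * a - c + 2 * δ)) ≤
      P {ω | a ≤ mx (fun u => B u ω) τ ∧ B τ ω ≤ c} := by
  have := hB.prob
  set W : ℕ → Set Ω := fun n =>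
    {ω | ∃ k ≤ 2 ^ n, ω ∈ fp B τ n a k ∧ 2 * B (dy τ n k) ω - c ≤ B τ ω} with hW
  have hWm : ∀ n, MeasurableSet (W n) := by
    intro n
    have : W n = ⋃ k, ⋃ (_ : k ≤ 2 ^ n),
        (fp B τ n a k ∩ {ω | 2 * B (dy τ n k) ω - c ≤ B τ ω}) := by
      ext ω
      simp only [hW, mem_ofPred_eq, mem_iUnion, exists_prop, mem_inter_iff]
    rw [this]
    exact MeasurableSet.iUnion fun k => MeasurableSet.iUnion fun _ =>
      (hB.raw_le _ _ (fp_meas B τ n a k)).inter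
        (measurableSet_le (((hB.meas _).const_mul _).sub_const _) (hB.meas _))
  have hWle : ∀ n, P (W n) ≤ P {ω | a ≤ mx (fun u => B u ω) τ ∧ B τ ω ≤ c} := by
    intro n
    simp only [hW]
    rw [← refl_disc hB τ n a c]
    refine measure_mono ?_
    rintro ω ⟨⟨k, hk, h⟩, hc⟩
    exact ⟨h.trans (le_mx (hB.cont ω) (dy_le hk)), hc⟩
  have hev : ∀ ω, 2 * a - c + 2 * δ ≤ B τ ω → ∀ᶠ n in atTop, ω ∈ W n := by
    intro ω hω
    have hcont := hB.cont ω
    have huc : UniformContinuousOn (fun u => B u ω) (Icc 0 τ) :=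
      isCompact_Icc.uniformContinuousOn_of_continuous hcont.continuousOn
    rw [Metric.uniformContinuousOn_iff] at huc
    obtain ⟨e, he, hee⟩ := huc δ hδ
    have hmesh : ∀ᶠ n : ℕ in atTop, τ / 2 ^ n < Real.toNNReal e :=
      (tendsto_mesh τ).eventually (gt_mem_nhds (Real.toNNReal_pos.2 he))
    filter_upwards [hmesh] with n hn
    classical
    have hlast : a ≤ B (dy τ n (2 ^ n)) ω := by
      rw [dy_last]
      linarith
    have hex : ∃ k, a ≤ B (dy τ n k) ω := ⟨_, hlast⟩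
    set k := Nat.find hex with hk
    have hk1 : k ≤ 2 ^ n := Nat.find_min' hex hlast
    have hk2 : a ≤ B (dy τ n k) ω := Nat.find_spec hex
    have hk3 : ∀ j, j < k → B (dy τ n j) ω < a := fun j hj => not_le.1 (Nat.find_min hex hj)
    have hk0 : k ≠ 0 := by
      intro h
      rw [h] at hk2
      have : dy τ n 0 = 0 := by simp [dy]
      rw [this, hB.zero] at hk2
      linarith
    obtain ⟨j, hj⟩ := Nat.exists_eq_succ_of_ne_zero hk0
    have hj' : k = j + 1 := hj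
    have hjk := hk3 j (by omega)
    have hd : dist (dy τ n k) (dy τ n j) < e := by
      have h1 : (dy τ n k : ℝ) = dy τ n j + (τ / 2 ^ n : ℝ≥0) := by
        rw [← NNReal.coe_add]
        congr 1
        rw [hj']
        unfold dy
        push_cast
        field_simp
      rw [NNReal.dist_eq, h1, add_sub_cancel_left, abs_of_nonneg (NNReal.coe_nonneg _)]
      have := NNReal.coe_lt_coe.2 hn
      rwa [Real.coe_toNNReal _ he.le] at this
    have hdist := hee (dy τ n k) ⟨zero_le, dy_le hk1⟩ (dy τ n j) ⟨zero_le, dy_le (by omega)⟩ hd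
    rw [Real.dist_eq] at hdist
    have h4 := (abs_lt.1 hdist).2
    refine ⟨k, hk1, ⟨hk3, hk2⟩, ?_⟩
    linarith
  have hfatou : ∫⁻ ω, liminf (fun n => (W n).indicator (1 : Ω → ℝ≥0∞) ω) atTop ∂P ≤
      liminf (fun n => ∫⁻ ω, (W n).indicator 1 ω ∂P) atTop :=
    lintegral_liminf_le fun n => measurable_one.indicator (hWm n)
  have h5 : liminf (fun n => ∫⁻ ω, (W n).indicator (1 : Ω → ℝ≥0∞) ω ∂P) atTop ≤
      P {ω | a ≤ mx (fun u => B u ω) τ ∧ B τ ω ≤ c} := by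
    refine (liminf_le_liminf (v := fun _ => P {ω | a ≤ mx (fun u => B u ω) τ ∧ B τ ω ≤ c})
      (Eventually.of_forall fun n => ?_)).trans ?_
    · rw [lintegral_indicator_one (hWm n)]
      exact hWle n
    · simp
  refine le_trans ?_ (hfatou.trans h5)
  have hm : MeasurableSet {ω | 2 * a - c + 2 * δ ≤ B τ ω} :=
    measurableSet_le measurable_const (hB.meas _)
  have e1 : gaussianReal 0 τ (Ici (2 * a - c + 2 * δ)) = P {ω | 2 * a - c + 2 * δ ≤ B τ ω} := by
    rw [← hB.law τ, Measure.map_apply (hB.meas τ) measurableSet_Ici]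
    rfl
  rw [e1, ← lintegral_indicator_one hm]
  refine lintegral_mono fun ω => ?_
  by_cases hω : 2 * a - c + 2 * δ ≤ B τ ω
  · have hω' : ω ∈ {ω | 2 * a - c + 2 * δ ≤ B τ ω} := hω
    rw [indicator_of_mem hω', Pi.one_apply]
    have h6 := hev ω hω
    have h7 : (fun n => (W n).indicator (1 : Ω → ℝ≥0∞) ω) =ᶠ[atTop] fun _ => 1 := by
      filter_upwards [h6] with n hn
      rw [indicator_of_mem hn, Pi.one_apply]
    rw [liminf_congr h7]
    simp
  · have : ω ∉ {ω | 2 * a - c + 2 * δ ≤ B τ ω} := hω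
    rw [indicator_of_notMem this]
    exact zero_le

/-- **The reflection principle.** -/
theorem refl (hB : BM B P) {τ : ℝ≥0} (hτ : 0 < τ) {a c : ℝ} (ha : 0 < a) (hca : c ≤ a) :
    P {ω | a ≤ mx (fun u => B u ω) τ ∧ B τ ω ≤ c} = gaussianReal 0 τ (Ici (2 * a - c)) := by
  have hfin : (gC τ : ℝ≥0∞) ≠ ∞ := ENNReal.coe_ne_top
  have key : ∀ ε : ℝ≥0, 0 < ε → ∃ δ : ℝ, 0 < δ ∧ gC τ * ENNReal.ofReal (2 * δ) ≤ ε := by
    intro ε hε
    refine ⟨ε / (2 * (gC τ + 1)), by positivity, ?_⟩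
    rw [← ENNReal.ofReal_coe_nnreal, ← ENNReal.ofReal_mul (NNReal.coe_nonneg _),
      ← ENNReal.ofReal_coe_nnreal]
    refine ENNReal.ofReal_le_ofReal ?_
    have h1 : (0 : ℝ) < gC τ + 1 := by positivity
    have h2 : (gC τ : ℝ) * (2 * (ε / (2 * (gC τ + 1)))) = ε * (gC τ / (gC τ + 1)) := by
      field_simp
    rw [h2]
    have h3 : (gC τ : ℝ) / (gC τ + 1) ≤ 1 := by
      rw [div_le_one h1]
      linarith
    have h4 : (0 : ℝ) ≤ ε := ε.2
    nlinarith
  apply le_antisymm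
  · refine ENNReal.le_of_forall_pos_le_add fun ε hε _ => ?_
    obtain ⟨δ, hδ, hδ'⟩ := key ε hε
    refine (refl_upper hB hτ (a' := a - δ) (by linarith)).trans ?_
    refine (gauss_Ici_le hτ.ne' (y := 2 * a - c) (by linarith)).trans ?_
    have : 2 * a - c - (2 * (a - δ) - c) = 2 * δ := by ring
    rw [this]
    gcongr
  · refine ENNReal.le_of_forall_pos_le_add fun ε hε _ => ?_
    obtain ⟨δ, hδ, hδ'⟩ := key ε hε
    refine (gauss_Ici_le hτ.ne' (y := 2 * a - c + 2 * δ) (by linarith)).trans ?_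
    have : 2 * a - c + 2 * δ - (2 * a - c) = 2 * δ := by ring
    rw [this]
    exact add_le_add (refl_lower hB hτ ha hca hδ) hδ'

end refl

end Pool.Agent.J4H99.PT
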